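import Mathlib

/-!
The norm of a permutation and the product of the associated graded group algebra.
-/

set_option autoImplicit false

namespace Pool.Agent.MP_15ac55_ag

/-- The norm of a permutation: the number of points minus the number of cycles, fixed points
being counted as cycles. -/
def permNorm {α : Type} [Fintype α] [DecidableEq α] (σ : Equiv.Perm α) : ℕ :=
  Fintype.card α - Multiset.card σ.partition.parts

/-- The product of the graded group algebra, on coefficient functions: `[σ][τ] = [στ]` if the
norms add up, and `0` otherwise. -/
def grMul {α : Type} [Fintype α] [DecidableEq α] (f g : Equiv.Perm α → ℚ) :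
    Equiv.Perm α → ℚ := fun π =>
  ∑ σ : Equiv.Perm α,
    if permNorm σ + permNorm (σ⁻¹ * π) = permNorm π then f σ * g (σ⁻¹ * π) else 0

end Pool.Agent.MP_15ac55_ag
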