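import Mathlib
import Pool.Agent.MP_15ac55_ag.DefsA

/-!
The generators `δ_i`, the map `φ_d` and the number of minimal relations, stated directly on
coefficient functions.
-/

set_option autoImplicit false

namespace Pool.Agent.MP_15ac55_ag

/-- `δ_i(d)`: the sum of all products of exactly `i` disjoint transpositions, as a coefficient
function on `S_d`. -/
def deltaFun (d i : ℕ) : Equiv.Perm (Fin d) → ℚ := fun σ =>
  if σ.cycleType = Multiset.replicate i 2 then 1 else 0

/-- The monomial `δ_1^{s_1} ⋯ δ_m^{s_m}` of the graded group algebra (applied to the unit `[id]`);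
the index `i : Fin m` stands for `δ_{i+1}`. -/
def deltaMonomial (d : ℕ) (s : Fin (d / 2) → ℕ) : Equiv.Perm (Fin d) → ℚ :=
  (List.finRange (d / 2)).foldr (fun i f => (grMul (deltaFun d (i.val + 1)))^[s i] f)
    (fun σ => if σ = 1 then 1 else 0)

/-- `φ_d(p)`, as a coefficient function on `S_d`. -/
def phiFun (d : ℕ) (p : MvPolynomial (Fin (d / 2)) ℚ) : Equiv.Perm (Fin d) → ℚ := fun π =>
  ∑ s ∈ p.support, p.coeff s * deltaMonomial d s π

/-- The dimension of the image of the subspace `V` in the quotient space `P / N`. -/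
noncomputable def quotDim {P : Type} [AddCommGroup P] [Module ℚ P] (N V : Submodule ℚ P) : ℕ :=
  Module.finrank ℚ (Submodule.map N.mkQ V)

/-- The dimension of the image of `I ∩ V` in `P / (M * I)`. -/
noncomputable def relDim {P : Type} [CommRing P] [Algebra ℚ P] (M I : Ideal P)
    (V : Submodule ℚ P) : ℕ :=
  quotDim ((M * I).restrictScalars ℚ) (I.restrictScalars ℚ ⊓ V)

/-- `𝔯_{d,n}`: the dimension of the degree `n` part of `I_d / P₊ I_d`, i.e. of the image of
`(I_d)_n` in `P / P₊ I_d`. -/
noncomputable def numRel (d n : ℕ) : ℕ :=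
  relDim (RingHom.ker (MvPolynomial.constantCoeff : MvPolynomial (Fin (d / 2)) ℚ →+* ℚ))
    (Ideal.span {p | ∀ π, phiFun d p π = 0})
    (MvPolynomial.weightedHomogeneousSubmodule ℚ (fun i : Fin (d / 2) => i.val + 1) n)

end Pool.Agent.MP_15ac55_ag
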