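import Mathlib
import Pool.Agent.MP_15ac55_ag.DefsA

/-!
Cycles of `swap p i * τ`; subadditivity of the norm.
-/

set_option autoImplicit false

open Finset Equiv Equiv.Perm

namespace Pool.Agent.MP_15ac55_ag

variable {α : Type} [Fintype α] [DecidableEq α]

lemma permNorm_add_card (σ : Perm α) :
    permNorm σ + Multiset.card σ.cycleType = σ.cycleType.sum := by
  have h1 : σ.support.card ≤ Fintype.card α := card_le_univ _
  have h2 : Multiset.card σ.cycleType ≤ σ.cycleType.sum := by
    have := Multiset.card_nsmul_le_sum (s := σ.cycleType) (a := 1)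
      (fun x hx => (one_lt_of_mem_cycleType hx).le)
    simpa using this
  rw [permNorm, parts_partition, Multiset.card_add, Multiset.card_replicate]
  rw [sum_cycleType] at h2 ⊢
  omega

lemma permNorm_congr {β : Type} [Fintype β] [DecidableEq β] {σ : Perm α} {τ : Perm β}
    (h : σ.cycleType = τ.cycleType) : permNorm σ = permNorm τ := by
  have h1 := permNorm_add_card σ
  have h2 := permNorm_add_card τ
  rw [h] at h1
  omega

@[simp] lemma permNorm_one : permNorm (1 : Perm α) = 0 := by
  have := permNorm_add_card (1 : Perm α)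
  simpa using this

lemma two_mul_card_le (σ : Perm α) : 2 * Multiset.card σ.cycleType ≤ σ.cycleType.sum := by
  have := Multiset.card_nsmul_le_sum (s := σ.cycleType) (a := 2)
    (fun x hx => two_le_of_mem_cycleType hx)
  simpa [mul_comm] using this

lemma permNorm_eq_zero {σ : Perm α} (h : permNorm σ = 0) : σ = 1 := by
  have h1 := permNorm_add_card σ
  have h2 := two_mul_card_le σ
  exact card_cycleType_eq_zero.mp (by omega)

@[simp] lemma permNorm_inv (σ : Perm α) : permNorm σ⁻¹ = permNorm σ :=
  permNorm_congr (cycleType_inv σ)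

@[simp] lemma permNorm_conj (σ g : Perm α) : permNorm (g * σ * g⁻¹) = permNorm σ :=
  permNorm_congr cycleType_conj

lemma permNorm_mul_comm (σ τ : Perm α) : permNorm (σ * τ) = permNorm (τ * σ) := by
  rw [← permNorm_conj (σ * τ) τ]; congr 1; group

lemma permNorm_disjoint {σ τ : Perm α} (h : σ.Disjoint τ) :
    permNorm (σ * τ) = permNorm σ + permNorm τ := by
  have h1 := permNorm_add_card σ
  have h2 := permNorm_add_card τ
  have h3 := permNorm_add_card (σ * τ)
  rw [h.cycleType_mul, Multiset.card_add, Multiset.sum_add] at h3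
  omega

omit [DecidableEq α] in
lemma sameCycle_ind {τ : Perm α} {x y : α} (P : α → Prop) (hx : P x) (hP : ∀ z, P z → P (τ z))
    (h : SameCycle τ x y) : P y := by
  obtain ⟨n, rfl⟩ := h.exists_nat_pow_eq
  induction n with
  | zero => simpa using hx
  | succ n ih => rw [pow_succ', mul_apply]; exact hP _ (ih (by simpa using SameCycle.rfl))

omit [DecidableEq α] in
lemma sameCycle_mono {τ π : Perm α} (h : ∀ z, SameCycle π z (τ z)) {x y : α}
    (hxy : SameCycle τ x y) : SameCycle π x y :=
  sameCycle_ind (fun z => SameCycle π x z) SameCycle.rfl (fun z hz => hz.trans (h z)) hxy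

def orb (τ : Perm α) (x : α) : Finset α := univ.filter fun y => SameCycle τ x y

def len (τ : Perm α) (x : α) : ℕ := (orb τ x).card

@[simp] lemma mem_orb {τ : Perm α} {x y : α} : y ∈ orb τ x ↔ SameCycle τ x y := by simp [orb]

lemma len_pos (τ : Perm α) (x : α) : 0 < len τ x := card_pos.mpr ⟨x, mem_orb.mpr SameCycle.rfl⟩

lemma orb_congr {τ : Perm α} {x y : α} (h : SameCycle τ x y) : orb τ x = orb τ y := by
  ext z
  simp only [mem_orb]
  exact ⟨fun a => h.symm.trans a, fun a => h.trans a⟩

lemma len_congr {τ : Perm α} {x y : α} (h : SameCycle τ x y) : len τ x = len τ y := by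
  rw [len, len, orb_congr h]

lemma merge_key {τ : Perm α} {p i : α} (h : ¬SameCycle τ p i) :
    SameCycle (swap p i * τ) p i := by
  set f : α → ℕ := fun y => if SameCycle (swap p i * τ) p y then 1 else 0 with hf
  have h1 : ∀ x, f (swap p i (τ x)) = f x := fun x => by
    simp only [hf]
    exact if_congr (sameCycle_apply_right (f := swap p i * τ)) rfl rfl
  have h2 : ∑ x ∈ orb τ p, f (swap p i (τ x)) = ∑ y ∈ orb τ p, f (swap p i y) :=
    sum_equiv τ (by simp) (by simp)
  have hp : p ∈ orb τ p := mem_orb.mpr SameCycle.rfl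
  have h3 : ∑ y ∈ (orb τ p).erase p, f (swap p i y) = ∑ y ∈ (orb τ p).erase p, f y := by
    refine sum_congr rfl fun y hy => ?_
    rw [mem_erase, mem_orb] at hy
    rw [swap_apply_of_ne_of_ne hy.1 (fun e : y = i => h (e ▸ hy.2))]
  simp_rw [h1] at h2
  rw [← add_sum_erase _ _ hp, ← add_sum_erase _ _ hp, h3, swap_apply_left] at h2
  have h4 : f i = 1 := by
    have : f p = 1 := by simp [hf, SameCycle.rfl]
    omega
  by_contra hc
  simp [hf, hc] at h4

lemma merge_le {τ : Perm α} {p i : α} (h : ¬SameCycle τ p i) {x y : α} (hxy : SameCycle τ x y) :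
    SameCycle (swap p i * τ) x y := by
  refine sameCycle_mono (fun z => ?_) hxy
  have h1 : SameCycle (swap p i * τ) z (swap p i (τ z)) :=
    (sameCycle_apply_right (f := swap p i * τ)).mpr SameCycle.rfl
  refine h1.trans ?_
  by_cases e1 : τ z = p
  · rw [e1, swap_apply_left]; exact (merge_key h).symm
  by_cases e2 : τ z = i
  · rw [e2, swap_apply_right]; exact merge_key h
  · rw [swap_apply_of_ne_of_ne e1 e2]

lemma merge_in {τ : Perm α} {p i : α} (h : ¬SameCycle τ p i) {x : α}
    (hx : SameCycle τ p x ∨ SameCycle τ i x) : orb (swap p i * τ) x = orb τ p ∪ orb τ i := by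
  have hpx : SameCycle (swap p i * τ) p x :=
    hx.elim (merge_le h) fun a => (merge_key h).trans (merge_le h a)
  rw [← orb_congr hpx]
  ext y
  simp only [mem_union, mem_orb]
  constructor
  · refine sameCycle_ind (fun z => SameCycle τ p z ∨ SameCycle τ i z) (Or.inl SameCycle.rfl) ?_
    intro z hz
    rw [mul_apply]
    by_cases e1 : τ z = p
    · rw [e1, swap_apply_left]; exact Or.inr SameCycle.rfl
    by_cases e2 : τ z = i
    · rw [e2, swap_apply_right]; exact Or.inl SameCycle.rfl
    · rw [swap_apply_of_ne_of_ne e1 e2]; simpa using hz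
  · exact fun hy => hy.elim (merge_le h) fun a => (merge_key h).trans (merge_le h a)

lemma merge_out {τ : Perm α} {p i : α} (h : ¬SameCycle τ p i) {x : α}
    (hx : ¬(SameCycle τ p x ∨ SameCycle τ i x)) : orb (swap p i * τ) x = orb τ x := by
  ext y
  simp only [mem_orb]
  refine ⟨?_, merge_le h⟩
  refine sameCycle_ind (fun z => SameCycle τ x z) SameCycle.rfl ?_
  intro z hz
  have hz' : SameCycle τ x (τ z) := by simpa using hz
  rw [mul_apply, swap_apply_of_ne_of_ne]
  · exact hz'
  · intro e; exact hx (Or.inl (e ▸ hz').symm)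
  · intro e; exact hx (Or.inr (e ▸ hz').symm)

lemma orb_disjoint {τ : Perm α} {p i : α} (h : ¬SameCycle τ p i) :
    Disjoint (orb τ p) (orb τ i) := by
  rw [disjoint_left]
  intro y h1 h2
  exact h ((mem_orb.mp h1).trans (mem_orb.mp h2).symm)

lemma len_merge {τ : Perm α} {p i : α} (h : ¬SameCycle τ p i) :
    len (swap p i * τ) p = len τ p + len τ i := by
  rw [len, merge_in h (Or.inl SameCycle.rfl), card_union_of_disjoint (orb_disjoint h)]
  rfl

/-- The sum of `g (length)` over all cycles (fixed points included). -/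
noncomputable def cycSum (g : ℕ → ℝ) (τ : Perm α) : ℝ := ∑ x, g (len τ x) / len τ x

lemma sum_orb (g : ℕ → ℝ) (τ : Perm α) (p : α) :
    ∑ x ∈ orb τ p, g (len τ x) / len τ x = g (len τ p) := by
  rw [sum_congr rfl (g := fun _ => g (len τ p) / len τ p)
    (fun x hx => by rw [len_congr (mem_orb.mp hx)]), sum_const, nsmul_eq_mul]
  have := len_pos τ p
  change (len τ p : ℝ) * _ = _
  field_simp

lemma cycSum_merge (g : ℕ → ℝ) {τ : Perm α} {p i : α} (h : ¬SameCycle τ p i) :
    cycSum g (swap p i * τ) + g (len τ p) + g (len τ i)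
      = cycSum g τ + g (len τ p + len τ i) := by
  have h1 := sum_orb g (swap p i * τ) p
  rw [len_merge h, merge_in h (Or.inl SameCycle.rfl)] at h1
  have h2 : ∑ x ∈ orb τ p ∪ orb τ i, g (len τ x) / len τ x = g (len τ p) + g (len τ i) := by
    rw [sum_union (orb_disjoint h), sum_orb, sum_orb]
  have h3 : ∑ x ∈ (orb τ p ∪ orb τ i)ᶜ, g (len (swap p i * τ) x) / len (swap p i * τ) x
      = ∑ x ∈ (orb τ p ∪ orb τ i)ᶜ, g (len τ x) / len τ x := by
    refine sum_congr rfl fun x hx => ?_
    rw [mem_compl, mem_union, mem_orb, mem_orb] at hx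
    rw [len, merge_out h hx]; rfl
  rw [cycSum, cycSum, ← sum_add_sum_compl (orb τ p ∪ orb τ i),
    ← sum_add_sum_compl (orb τ p ∪ orb τ i), h1, h2, h3]
  ring

lemma cycSum_eq (g : ℕ → ℝ) (τ : Perm α) :
    cycSum g τ = (τ.cycleType.map g).sum + (Fintype.card α - τ.support.card : ℝ) * g 1 := by
  rw [cycSum, ← sum_add_sum_compl τ.support]
  congr 1
  · rw [cycleType_def, Multiset.map_map, ← sum_fiberwise_of_maps_to (t := τ.cycleFactorsFinset)
      (g := fun x => τ.cycleOf x) (fun x hx => cycleOf_mem_cycleFactorsFinset_iff.mpr hx)]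
    refine sum_congr rfl fun c hc => ?_
    obtain ⟨p, hp⟩ := (mem_cycleFactorsFinset_iff.mp hc).1.nonempty_support
    have hcp := cycle_is_cycleOf hp hc
    have hp' : p ∈ τ.support := mem_cycleFactorsFinset_support_le hc hp
    have h1 : c.support = orb τ p := by
      ext y
      rw [hcp, mem_support_cycleOf_iff, mem_orb]
      exact and_iff_left hp'
    have h2 : τ.support.filter (fun x => τ.cycleOf x = c) = orb τ p := by
      ext y
      rw [mem_filter, mem_orb]
      constructor
      · rintro ⟨a1, a2⟩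
        rw [← mem_orb, ← h1, ← a2, mem_support_cycleOf_iff]
        exact ⟨SameCycle.rfl, a1⟩
      · intro a
        exact ⟨a.mem_support_iff.mp hp', by rw [hcp, a.cycleOf_eq]⟩
    rw [h2, sum_orb]
    simp [h1, len]
  · rw [sum_congr rfl (g := fun _ => g 1), sum_const, card_compl, nsmul_eq_mul,
      Nat.cast_sub (card_le_univ _)]
    intro x hx
    have h1 : orb τ x = {x} := by
      ext y
      rw [mem_orb, mem_singleton]
      rw [mem_compl, notMem_support] at hx
      exact ⟨fun a => (a.eq_of_left hx).symm, fun a => a ▸ SameCycle.rfl⟩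
    simp [len, h1]

lemma cycSum_one (τ : Perm α) : cycSum (fun _ => 1) τ = Fintype.card α - (permNorm τ : ℝ) := by
  have := permNorm_add_card τ
  rw [sum_cycleType] at this
  rw [cycSum_eq, ← this]
  simp
  ring

lemma cycSum_log (τ : Perm α) :
    cycSum (fun n => Real.log n) τ = Real.log (τ.cycleType.prod : ℕ) := by
  rw [cycSum_eq]
  have : ∀ m : Multiset ℕ, (∀ a ∈ m, a ≠ 0) →
      (m.map fun n : ℕ => Real.log n).sum = Real.log (m.prod : ℕ) := by
    intro m
    induction m using Multiset.induction_on with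
    | empty => simp
    | cons a m ih =>
      intro h
      have h1 : a ≠ 0 := h a (Multiset.mem_cons_self _ _)
      have h2 : ∀ b ∈ m, b ≠ 0 := fun b hb => h b (Multiset.mem_cons_of_mem hb)
      have h3 : m.prod ≠ 0 := Multiset.prod_ne_zero fun a => h2 0 a rfl
      rw [Multiset.map_cons, Multiset.sum_cons, ih h2, Multiset.prod_cons, Nat.cast_mul,
        Real.log_mul (by exact_mod_cast h1) (by exact_mod_cast h3)]
  rw [this _ fun a ha => by have := two_le_of_mem_cycleType ha; omega]
  simp

lemma prod_pos (τ : Perm α) : 0 < τ.cycleType.prod :=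
  Nat.pos_of_ne_zero (Multiset.prod_ne_zero fun a => by
    have := two_le_of_mem_cycleType a; omega)

lemma permNorm_merge {τ : Perm α} {p i : α} (h : ¬SameCycle τ p i) :
    permNorm (swap p i * τ) = permNorm τ + 1 := by
  have := cycSum_merge (fun _ => 1) h
  rw [cycSum_one, cycSum_one] at this
  have h2 : (permNorm (swap p i * τ) : ℝ) = permNorm τ + 1 := by linarith
  exact_mod_cast h2

lemma prod_merge {τ : Perm α} {p i : α} (h : ¬SameCycle τ p i) :
    (swap p i * τ).cycleType.prod * (len τ p * len τ i)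
      = τ.cycleType.prod * (len τ p + len τ i) := by
  have := cycSum_merge (fun n => Real.log n) h
  rw [cycSum_log, cycSum_log] at this
  have h1 : (0 : ℝ) < ((swap p i * τ).cycleType.prod : ℕ) := by exact_mod_cast prod_pos _
  have h2 : (0 : ℝ) < (τ.cycleType.prod : ℕ) := by exact_mod_cast prod_pos _
  have h3 : (0 : ℝ) < len τ p := by exact_mod_cast len_pos _ _
  have h4 : (0 : ℝ) < len τ i := by exact_mod_cast len_pos _ _
  have h5 : (0 : ℝ) < (len τ p + len τ i : ℕ) := by push_cast; positivity
  rw [← Real.log_mul h1.ne' h3.ne', ← Real.log_mul (by positivity) h4.ne',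
    ← Real.log_mul h2.ne' h5.ne'] at this
  have h6 := Real.log_injOn_pos (by simp only [Set.mem_Ioi]; positivity)
    (by simp only [Set.mem_Ioi]; positivity) this
  rw [← mul_assoc]
  exact_mod_cast h6

lemma permNorm_swap_mul_le {τ : Perm α} {p i : α} (h : SameCycle τ p i) :
    permNorm (swap p i * τ) ≤ permNorm τ := by
  have h1 : ∀ x, len (swap p i * τ) x ≤ len τ x := by
    intro x
    refine card_le_card fun y hy => mem_orb.mpr (sameCycle_mono (fun z => ?_) (mem_orb.mp hy))
    have h2 : SameCycle τ z (τ z) := by simpa using SameCycle.rfl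
    rw [mul_apply]
    by_cases e1 : τ z = p
    · rw [e1, swap_apply_left]; exact (e1 ▸ h2).trans h
    by_cases e2 : τ z = i
    · rw [e2, swap_apply_right]; exact (e2 ▸ h2).trans h.symm
    · rwa [swap_apply_of_ne_of_ne e1 e2]
  have h2 : cycSum (fun _ => 1) τ ≤ cycSum (fun _ => 1) (swap p i * τ) := by
    refine sum_le_sum fun x _ => ?_
    exact one_div_le_one_div_of_le (by exact_mod_cast len_pos _ _) (by exact_mod_cast h1 x)
  rw [cycSum_one, cycSum_one] at h2
  have h3 : (permNorm (swap p i * τ) : ℝ) ≤ permNorm τ := by linarith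
  exact_mod_cast h3

lemma permNorm_swap_mul_iff {τ : Perm α} {p i : α} :
    permNorm (swap p i * τ) = permNorm τ + 1 ↔ ¬SameCycle τ p i :=
  ⟨fun h hc => by have := permNorm_swap_mul_le hc; omega, permNorm_merge⟩

lemma permNorm_swap_mul_le' (τ : Perm α) (p i : α) :
    permNorm (swap p i * τ) ≤ permNorm τ + 1 := by
  by_cases h : SameCycle τ p i
  · exact (permNorm_swap_mul_le h).trans (Nat.le_succ _)
  · exact (permNorm_merge h).le

lemma exists_swap_mul {σ : Perm α} (h : σ ≠ 1) :
    ∃ p i σ', σ = swap p i * σ' ∧ permNorm σ = permNorm σ' + 1 := by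
  obtain ⟨x, hx⟩ : ∃ x, σ x ≠ x := by
    by_contra hc
    push Not at hc
    exact h (Equiv.ext hc)
  have h1 : σ = swap x (σ x) * (swap x (σ x) * σ) := by rw [swap_mul_self_mul]
  refine ⟨x, σ x, swap x (σ x) * σ, h1, ?_⟩
  conv_lhs => rw [h1]
  refine permNorm_merge fun hc => hx (hc.eq_of_left ?_).symm
  simp [Function.IsFixedPt]

lemma permNorm_mul_aux (τ : Perm α) (n : ℕ) : ∀ σ : Perm α, permNorm σ = n →
    permNorm (σ * τ) ≤ permNorm σ + permNorm τ ∧
      (permNorm (σ * τ) = permNorm σ + permNorm τ →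
        ∀ x y, SameCycle τ x y → SameCycle (σ * τ) x y) := by
  induction n with
  | zero =>
    intro σ h
    rw [permNorm_eq_zero h]
    simp
  | succ n ih =>
    intro σ h
    obtain ⟨p, i, σ', rfl, h2⟩ := exists_swap_mul (σ := σ) (by rintro rfl; simp at h)
    obtain ⟨h3, h4⟩ := ih σ' (by omega)
    have h5 := permNorm_swap_mul_le' (σ' * τ) p i
    rw [mul_assoc]
    refine ⟨by omega, fun h6 x y hxy => ?_⟩
    exact merge_le (permNorm_swap_mul_iff.mp (by omega)) (h4 (by omega) x y hxy)

lemma permNorm_mul_le (σ τ : Perm α) : permNorm (σ * τ) ≤ permNorm σ + permNorm τ :=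
  (permNorm_mul_aux τ _ σ rfl).1

lemma sameCycle_of_add {σ τ : Perm α} (h : permNorm σ + permNorm τ = permNorm (σ * τ)) {x y : α}
    (hxy : SameCycle τ x y) : SameCycle (σ * τ) x y :=
  (permNorm_mul_aux τ _ σ rfl).2 h.symm x y hxy

lemma fixed_of_add {σ τ : Perm α} (h : permNorm σ + permNorm τ = permNorm (σ * τ)) {x : α}
    (hx : (σ * τ) x = x) : τ x = x ∧ σ x = x := by
  have h1 : τ x = x :=
    ((sameCycle_of_add h (x := x) (y := τ x) (by simpa using SameCycle.rfl)).eq_of_left hx).symm
  refine ⟨h1, ?_⟩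
  rwa [mul_apply, h1] at hx

end Pool.Agent.MP_15ac55_ag
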