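import Mathlib
import Pool.Agent.MP_15ac55_ag.Norm

/-!
Ring axioms for the graded product; restriction to subsets; peeling off a transposition.
-/

set_option autoImplicit false

open Finset Equiv Equiv.Perm

namespace Pool.Agent.MP_15ac55_ag

variable {α : Type} [Fintype α] [DecidableEq α]

lemma cocycle (σ τ ρ : Perm α) :
    (permNorm (σ * τ) + permNorm ρ = permNorm (σ * τ * ρ) ∧
      permNorm σ + permNorm τ = permNorm (σ * τ)) ↔
    (permNorm σ + permNorm (τ * ρ) = permNorm (σ * τ * ρ) ∧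
      permNorm τ + permNorm ρ = permNorm (τ * ρ)) := by
  have h1 := permNorm_mul_le σ τ
  have h2 := permNorm_mul_le τ ρ
  have h3 := permNorm_mul_le (σ * τ) ρ
  have h4 := permNorm_mul_le σ (τ * ρ)
  rw [← mul_assoc] at h4
  omega

lemma grMul_assoc (f g h : Perm α → ℚ) : grMul (grMul f g) h = grMul f (grMul g h) := by
  funext π
  simp only [grMul]
  have e1 : ∀ x : Perm α, (if permNorm x + permNorm (x⁻¹ * π) = permNorm π then
      (∑ σ, if permNorm σ + permNorm (σ⁻¹ * x) = permNorm x then f σ * g (σ⁻¹ * x) else 0)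
        * h (x⁻¹ * π) else 0)
      = ∑ σ, if (permNorm x + permNorm (x⁻¹ * π) = permNorm π ∧
          permNorm σ + permNorm (σ⁻¹ * x) = permNorm x) then f σ * g (σ⁻¹ * x) * h (x⁻¹ * π)
          else 0 := by
    intro x
    split_ifs with hx
    · simp [hx, sum_mul]
    · simp [hx]
  simp_rw [e1]
  rw [sum_comm]
  refine sum_congr rfl fun σ _ => ?_
  rw [← Equiv.sum_comp (Equiv.mulLeft σ)]
  have e2 : ∀ τ : Perm α,
      (permNorm (σ * τ) + permNorm ((σ * τ)⁻¹ * π) = permNorm π ∧
        permNorm σ + permNorm τ = permNorm (σ * τ)) ↔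
      (permNorm σ + permNorm (σ⁻¹ * π) = permNorm π ∧
        permNorm τ + permNorm (τ⁻¹ * (σ⁻¹ * π)) = permNorm (σ⁻¹ * π)) := by
    intro τ
    have := cocycle σ τ (τ⁻¹ * (σ⁻¹ * π))
    simpa [mul_assoc] using this
  simp only [coe_mulLeft, inv_mul_cancel_left, e2]
  split_ifs with hσ
  · simp [hσ, mul_sum, mul_assoc]
  · simp [hσ]

lemma grMul_one_left (f : Perm α → ℚ) : grMul (Pi.single 1 1) f = f := by
  funext π
  rw [grMul, sum_eq_single 1]
  · simp
  · intro σ _ h; simp [h]
  · simp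

lemma grMul_one_right (f : Perm α → ℚ) : grMul f (Pi.single 1 1) = f := by
  funext π
  rw [grMul, sum_eq_single π]
  · simp
  · intro σ _ h
    have : σ⁻¹ * π ≠ 1 := fun e => h (inv_mul_eq_one.mp e)
    simp [this]
  · simp

lemma grMul_add_left (f f' g : Perm α → ℚ) : grMul (f + f') g = grMul f g + grMul f' g := by
  funext π
  simp only [grMul, Pi.add_apply, ← sum_add_distrib]
  refine sum_congr rfl fun σ _ => ?_
  split_ifs <;> ring

lemma grMul_add_right (f g g' : Perm α → ℚ) : grMul f (g + g') = grMul f g + grMul f g' := by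
  funext π
  simp only [grMul, Pi.add_apply, ← sum_add_distrib]
  refine sum_congr rfl fun σ _ => ?_
  split_ifs <;> ring

lemma grMul_smul_left (c : ℚ) (f g : Perm α → ℚ) : grMul (c • f) g = c • grMul f g := by
  funext π
  simp only [grMul, Pi.smul_apply, smul_eq_mul, mul_sum]
  refine sum_congr rfl fun σ _ => ?_
  split_ifs <;> ring

lemma grMul_smul_right (c : ℚ) (f g : Perm α → ℚ) : grMul f (c • g) = c • grMul f g := by
  funext π
  simp only [grMul, Pi.smul_apply, smul_eq_mul, mul_sum]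
  refine sum_congr rfl fun σ _ => ?_
  split_ifs <;> ring

lemma grMul_zero_left (g : Perm α → ℚ) : grMul 0 g = 0 := by
  funext π; simp [grMul]

lemma grMul_zero_right (f : Perm α → ℚ) : grMul f 0 = 0 := by
  funext π; simp [grMul]

lemma grMul_sum_left {ι : Type} (s : Finset ι) (f : ι → Perm α → ℚ) (g : Perm α → ℚ) :
    grMul (∑ i ∈ s, f i) g = ∑ i ∈ s, grMul (f i) g := by
  classical
  induction s using Finset.induction_on with
  | empty => simp [grMul_zero_left]
  | insert a s ha ih => rw [sum_insert ha, sum_insert ha, grMul_add_left, ih]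

lemma grMul_conj {f g : Perm α → ℚ} (hf : ∀ x σ, f (x * σ * x⁻¹) = f σ)
    (hg : ∀ x σ, g (x * σ * x⁻¹) = g σ) (x π : Perm α) :
    grMul f g (x * π * x⁻¹) = grMul f g π := by
  simp only [grMul]
  rw [← Equiv.sum_comp (MulAut.conj x).toEquiv]
  refine sum_congr rfl fun σ _ => ?_
  have e : (x * σ * x⁻¹)⁻¹ * (x * π * x⁻¹) = x * (σ⁻¹ * π) * x⁻¹ := by group
  simp only [MulEquiv.toEquiv_eq_coe, EquivLike.coe_coe, MulAut.conj_apply, e, permNorm_conj, hf,
    hg]

lemma grMul_comm {f : Perm α → ℚ} (hf : ∀ x σ, f (x * σ * x⁻¹) = f σ) (g : Perm α → ℚ) :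
    grMul f g = grMul g f := by
  funext π
  simp only [grMul]
  refine sum_equiv ((Equiv.inv _).trans (Equiv.mulRight π)) (by simp) fun σ _ => ?_
  have e : (σ⁻¹ * π)⁻¹ * π = π⁻¹ * σ * π⁻¹⁻¹ := by group
  simp only [Equiv.trans_apply, Equiv.inv_apply, coe_mulRight, e, permNorm_conj, hf, add_comm,
    mul_comm]

lemma single_conj (x σ : Perm α) :
    (Pi.single 1 1 : Perm α → ℚ) (x * σ * x⁻¹) = (Pi.single 1 1 : Perm α → ℚ) σ := by
  simp only [Pi.single_apply]
  refine if_congr ?_ rfl rfl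
  simp

lemma sum_grMul (f g h : Perm α → ℚ) : ∑ π, grMul f g π * h π = ∑ τ, g τ *
    ∑ σ, if permNorm σ + permNorm τ = permNorm (σ * τ) then f σ * h (σ * τ) else 0 := by
  simp only [grMul, sum_mul, mul_sum]
  rw [sum_comm, sum_comm (f := fun τ σ => g τ * _)]
  refine sum_congr rfl fun σ _ => ?_
  rw [← Equiv.sum_comp (Equiv.mulLeft σ)]
  refine sum_congr rfl fun τ _ => ?_
  simp only [coe_mulLeft, inv_mul_cancel_left]
  split_ifs <;> ring

lemma grMul_ne_zero {f g : Perm α → ℚ} {π : Perm α} (h : grMul f g π ≠ 0) :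
    ∃ σ τ, π = σ * τ ∧ permNorm σ + permNorm τ = permNorm π ∧ f σ ≠ 0 ∧ g τ ≠ 0 := by
  obtain ⟨σ, -, hσ⟩ := exists_ne_zero_of_sum_ne_zero h
  split_ifs at hσ with h1
  · exact ⟨σ, σ⁻¹ * π, by simp, h1, left_ne_zero_of_mul hσ, right_ne_zero_of_mul hσ⟩
  · exact absurd rfl hσ

lemma grMul_extendDomain {β : Type} [Fintype β] [DecidableEq β] {p : β → Prop} [DecidablePred p]
    (e : α ≃ Subtype p) (f g : Perm β → ℚ) (π : Perm α) :
    grMul f g (π.extendDomain e)
      = grMul (fun σ => f (σ.extendDomain e)) (fun σ => g (σ.extendDomain e)) π := by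
  simp only [grMul]
  have hN : ∀ σ : Perm α, permNorm (σ.extendDomain e) = permNorm σ := fun σ =>
    permNorm_congr (cycleType_extendDomain e)
  symm
  refine sum_of_injOn (fun σ => σ.extendDomain e) (extendDomainHom_injective e).injOn (by simp)
    ?_ ?_
  · intro σ _ hσ
    rw [if_neg]
    intro h
    refine hσ ?_
    have h1 : ∀ x, ¬p x → σ x = x := fun x hx => by
      refine (fixed_of_add (τ := σ⁻¹ * π.extendDomain e) (by simpa using h) ?_).2
      rw [mul_inv_cancel_left, extendDomain_apply_not_subtype _ _ hx]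
    have h2 : ∀ x, p (σ x) ↔ p x := fun x => by
      by_cases hx : p x
      · refine iff_of_true ?_ hx
        by_contra hc
        have := σ.injective (h1 _ hc)
        exact hc (this.symm ▸ hx)
      · rw [h1 x hx]
    refine ⟨e.symm.permCongr (σ.subtypePerm h2), by simp, ?_⟩
    ext x
    by_cases hx : p x
    · simp [extendDomain_apply_subtype _ _ hx]
    · simp [extendDomain_apply_not_subtype _ _ hx, h1 x hx]
  · intro σ _
    rw [extendDomain_inv, extendDomain_mul, hN, hN, hN]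

omit [Fintype α] in
lemma disjoint_swap {ρ : Perm α} {a b : α} (ha : ρ a = a) (hb : ρ b = b) :
    ρ.Disjoint (swap a b) := by
  intro x
  by_cases e1 : x = a
  · exact Or.inl (e1 ▸ ha)
  by_cases e2 : x = b
  · exact Or.inl (e2 ▸ hb)
  · exact Or.inr (swap_apply_of_ne_of_ne e1 e2)

lemma permNorm_mul_swap {ρ : Perm α} {a b : α} (hab : a ≠ b) (ha : ρ a = a) :
    permNorm (ρ * swap a b) = permNorm ρ + 1 := by
  rw [permNorm_mul_comm]
  exact permNorm_merge fun h => hab (h.eq_of_left ha)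

lemma cycleType_mul_swap {ρ : Perm α} {a b : α} (hab : a ≠ b) (ha : ρ a = a) (hb : ρ b = b) :
    (ρ * swap a b).cycleType = 2 ::ₘ ρ.cycleType := by
  rw [(disjoint_swap ha hb).cycleType_mul, isSwap_iff_cycleType.mp ⟨a, b, hab, rfl⟩, add_comm,
    Multiset.singleton_add]

lemma grMul_peel (f g : Perm α → ℚ) {π : Perm α} {a b : α} (hab : a ≠ b) (ha : π a = a)
    (hb : π b = b) : grMul f g (π * swap a b)
      = grMul f (fun τ => g (τ * swap a b)) π + grMul (fun σ => f (σ * swap a b)) g π := by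
  have hπ := permNorm_mul_swap hab ha
  have hB : ∀ σ : Perm α, permNorm σ + permNorm (σ⁻¹ * π) = permNorm π →
      (σ a = a ∧ σ b = b) ∧ (σ⁻¹ * π) a = a ∧ (σ⁻¹ * π) b = b := by
    intro σ h
    have h1 := fixed_of_add (σ := σ) (τ := σ⁻¹ * π) (x := a) (by simpa using h) (by simpa using ha)
    have h2 := fixed_of_add (σ := σ) (τ := σ⁻¹ * π) (x := b) (by simpa using h) (by simpa using hb)
    exact ⟨⟨h1.2, h2.2⟩, h1.1, h2.1⟩
  have hA : ∀ σ : Perm α, permNorm σ + permNorm (σ⁻¹ * (π * swap a b)) = permNorm (π * swap a b) →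
      (σ⁻¹ b = a ∨ σ⁻¹ b = b) ∧ (σ⁻¹ a = a ∨ σ⁻¹ a = b) := by
    intro σ h
    have key : ∀ x y, (x = a ∨ x = b) → SameCycle (σ⁻¹ * (π * swap a b)) x y → y = a ∨ y = b := by
      intro x y hx hxy
      have h1 := sameCycle_of_add (σ := σ) (τ := σ⁻¹ * (π * swap a b)) (by simpa using h) hxy
      rw [mul_inv_cancel_left] at h1
      refine sameCycle_ind (fun z => z = a ∨ z = b) hx ?_ h1
      rintro z (rfl | rfl)
      · simp [hb]
      · simp [ha]
    have k1 := key a _ (Or.inl rfl) (sameCycle_apply_right.mpr SameCycle.rfl)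
    have k2 := key b _ (Or.inr rfl) (sameCycle_apply_right.mpr SameCycle.rfl)
    simp only [mul_apply, swap_apply_left, swap_apply_right, ha, hb] at k1 k2
    exact ⟨k1, k2⟩
  have hcomm : ∀ ρ : Perm α, ρ a = a → ρ b = b → swap a b * ρ * swap a b = ρ := by
    intro ρ h1 h2
    rw [← (disjoint_swap h1 h2).commute.eq, mul_assoc, swap_mul_self, mul_one]
  have e0 : ∀ σ : Perm α, (σ * swap a b)⁻¹ * (π * swap a b) = swap a b * (σ⁻¹ * π) * swap a b := by
    intro σ; rw [mul_inv_rev, swap_inv]; group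
  have h1 : ∀ σ : Perm α,
      (permNorm σ + permNorm (σ⁻¹ * (π * swap a b)) = permNorm (π * swap a b) ∧ σ a = a) ↔
      permNorm σ + permNorm (σ⁻¹ * π) = permNorm π := by
    intro σ
    constructor
    · rintro ⟨h, h2⟩
      have h3 : (σ⁻¹ * π) a = a := by rw [mul_apply, ha, inv_eq_iff_eq, h2]
      rw [← mul_assoc, permNorm_mul_swap hab h3, hπ] at h
      omega
    · intro h
      obtain ⟨⟨h2, -⟩, h3, -⟩ := hB σ h
      rw [← mul_assoc, permNorm_mul_swap hab h3, hπ]
      exact ⟨by omega, h2⟩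
  have h2 : ∀ σ : Perm α,
      (permNorm (σ * swap a b) + permNorm ((σ * swap a b)⁻¹ * (π * swap a b))
        = permNorm (π * swap a b) ∧ ¬(σ * swap a b) a = a) ↔
      permNorm σ + permNorm (σ⁻¹ * π) = permNorm π := by
    intro σ
    have hN : permNorm ((σ * swap a b)⁻¹ * (π * swap a b)) = permNorm (σ⁻¹ * π) := by
      rw [e0]
      simpa using permNorm_conj (σ⁻¹ * π) (swap a b)
    constructor
    · rintro ⟨h, h2⟩
      obtain ⟨k1, k2⟩ := hA _ h
      simp only [inv_eq_iff_eq, mul_apply, swap_apply_left, swap_apply_right] at k1 k2 h2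
      have k3 : σ a = a := (k2.resolve_left fun e => h2 e.symm).symm
      rw [hN, permNorm_mul_swap hab k3, hπ] at h
      omega
    · intro h
      obtain ⟨⟨h2, h3⟩, -⟩ := hB σ h
      rw [hN, permNorm_mul_swap hab h2, hπ]
      refine ⟨by omega, ?_⟩
      rw [mul_apply, swap_apply_left, h3]
      exact hab.symm
  simp only [grMul]
  rw [← sum_filter_add_sum_filter_not univ (fun σ : Perm α => σ a = a), sum_filter, sum_filter]
  congr 1
  · refine sum_congr rfl fun σ _ => ?_
    rw [← ite_and, mul_assoc]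
    exact if_congr (and_comm.trans (h1 σ)) rfl rfl
  · rw [← Equiv.sum_comp (Equiv.mulRight (swap a b))]
    refine sum_congr rfl fun σ _ => ?_
    rw [← ite_and, coe_mulRight]
    refine if_ctx_congr (and_comm.trans (h2 σ)) (fun h => ?_) (fun _ => rfl)
    obtain ⟨-, h3, h4⟩ := hB σ h
    rw [e0, hcomm _ h3 h4]

end Pool.Agent.MP_15ac55_ag
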