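import Mathlib
import Pool.Agent.MP_15ac55_ag.DefsA
import Pool.Agent.MP_15ac55_ag.Conv

/-!
The algebra `A(d)`, its generators `δ_i`, and the number of minimal relations.
-/

set_option autoImplicit false

namespace Pool.Agent.MP_15ac55_ag

/-- `A(d)` as a vector space: the span of the conjugacy class sums, i.e. the elements
`∑ f(σ) [σ]` whose coefficient function `f` is a class function. -/
def classFun (d : ℕ) : Submodule ℚ (Equiv.Perm (Fin d) → ℚ) where
  carrier := {f | ∀ x σ, f (x * σ * x⁻¹) = f σ}
  add_mem' := fun hf hg x σ => by simp only [Pi.add_apply, hf x σ, hg x σ]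
  zero_mem' := fun _ _ => rfl
  smul_mem' := fun c f hf x σ => by simp only [Pi.smul_apply, hf x σ]

/-- `A(d)` as a commutative ring, for the graded product. -/
instance instCommRingClassFun (d : ℕ) : CommRing (classFun d) :=
  { (classFun d).addCommGroup with
    mul := fun f g => ⟨grMul f.1 g.1, fun x σ => grMul_conj f.2 g.2 x σ⟩
    one := ⟨Pi.single 1 1, fun x σ => single_conj x σ⟩
    mul_assoc := fun f g h => Subtype.ext (grMul_assoc f.1 g.1 h.1)
    one_mul := fun f => Subtype.ext (grMul_one_left f.1)
    mul_one := fun f => Subtype.ext (grMul_one_right f.1)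
    zero_mul := fun f => Subtype.ext (grMul_zero_left f.1)
    mul_zero := fun f => Subtype.ext (grMul_zero_right f.1)
    left_distrib := fun f g h => Subtype.ext (grMul_add_right f.1 g.1 h.1)
    right_distrib := fun f g h => Subtype.ext (grMul_add_left f.1 g.1 h.1)
    mul_comm := fun f g => Subtype.ext (grMul_comm f.2 g.1) }

/-- `A(d)` as a `ℚ`-algebra. -/
noncomputable instance instAlgebraClassFun (d : ℕ) : Algebra ℚ (classFun d) :=
  Algebra.ofModule (fun c f g => Subtype.ext (grMul_smul_left c f.1 g.1))
    (fun c f g => Subtype.ext (grMul_smul_right c f.1 g.1))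

/-- `δ_i(d)`: the sum of all products of exactly `i` disjoint transpositions. -/
def delta (d i : ℕ) : classFun d :=
  ⟨fun σ => if σ.cycleType = Multiset.replicate i 2 then 1 else 0,
    fun x σ => by simp only [Equiv.Perm.cycleType_conj]⟩

/-- `φ_d : ℚ[X_1, …, X_m] → A(d)`, `m = ⌊d/2⌋`; the variable of index `i : Fin m` is `X_{i+1}`. -/
noncomputable def phi (d : ℕ) : MvPolynomial (Fin (d / 2)) ℚ →ₐ[ℚ] classFun d :=
  MvPolynomial.aeval fun i => delta d (i.val + 1)

/-- `𝔯_{d,n}`: the dimension of the degree `n` part of `I_d / P₊ I_d`, i.e. of the image of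
`(I_d)_n` in `P / P₊ I_d`. -/
noncomputable def minRel (d n : ℕ) : ℕ :=
  Module.finrank ℚ (Submodule.map
    (Ideal.Quotient.mkₐ ℚ
      (RingHom.ker (MvPolynomial.constantCoeff : MvPolynomial (Fin (d / 2)) ℚ →+* ℚ)
        * RingHom.ker (phi d))).toLinearMap
    ((RingHom.ker (phi d)).restrictScalars ℚ ⊓
      MvPolynomial.weightedHomogeneousSubmodule ℚ (fun i : Fin (d / 2) => i.val + 1) n))

end Pool.Agent.MP_15ac55_ag
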