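import Mathlib
import Pool.Agent.MP_15ac55_ag.DefsB

/-!
The stable algebra: compatible families of class functions.
-/

set_option autoImplicit false

open Finset Equiv Equiv.Perm

namespace Pool.Agent.MP_15ac55_ag

def Valid (μ : Multiset ℕ) : Prop := ∀ a ∈ μ, 2 ≤ a

def nrm (μ : Multiset ℕ) : ℕ := μ.sum - Multiset.card μ

lemma valid_type {d : ℕ} (σ : Perm (Fin d)) : Valid σ.cycleType := fun _ h =>
  two_le_of_mem_cycleType h

lemma nrm_type {d : ℕ} (σ : Perm (Fin d)) : nrm σ.cycleType = permNorm σ := by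
  have := permNorm_add_card σ
  rw [nrm]; omega

lemma Valid.two_mul_card_le {μ : Multiset ℕ} (h : Valid μ) : 2 * Multiset.card μ ≤ μ.sum := by
  have := Multiset.card_nsmul_le_sum (s := μ) (a := 2) h
  simpa [mul_comm] using this

lemma Valid.exists_perm {μ : Multiset ℕ} (h : Valid μ) {d : ℕ} (hd : μ.sum ≤ d) :
    ∃ σ : Perm (Fin d), σ.cycleType = μ :=
  (exists_with_cycleType_iff (Fin d)).mpr ⟨by simpa using hd, h⟩

lemma grMul_congr {α : Type} [Fintype α] [DecidableEq α] {f f' g g' : Perm α → ℚ} {π : Perm α}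
    (hf : ∀ σ : Perm α, (∀ x, π x = x → σ x = x) → f σ = f' σ)
    (hg : ∀ σ : Perm α, (∀ x, π x = x → σ x = x) → g σ = g' σ) :
    grMul f g π = grMul f' g' π := by
  refine sum_congr rfl fun σ _ => if_ctx_congr Iff.rfl (fun h => ?_) fun _ => rfl
  have key : ∀ x, π x = x → (σ⁻¹ * π) x = x ∧ σ x = x := fun x hx =>
    fixed_of_add (σ := σ) (τ := σ⁻¹ * π) (by simpa using h) (by simpa using hx)
  rw [hf σ fun x hx => (key x hx).2, hg _ fun x hx => (key x hx).1]

lemma grMul_type_le (h₁ h₂ : Multiset ℕ → ℚ) {d d' : ℕ} (hd : d ≤ d') (π : Perm (Fin d))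
    (π' : Perm (Fin d')) (h : π.cycleType = π'.cycleType) :
    grMul (fun σ => h₁ σ.cycleType) (fun σ => h₂ σ.cycleType) π
      = grMul (fun σ => h₁ σ.cycleType) (fun σ => h₂ σ.cycleType) π' := by
  let e := (Fin.castLEEmb hd).toEquivRange
  obtain ⟨x, hx⟩ := isConj_iff.mp
    (isConj_of_cycleType_eq ((cycleType_extendDomain e (g := π)).trans h))
  rw [← hx, grMul_conj (by simp) (by simp), grMul_extendDomain]
  simp only [cycleType_extendDomain]

lemma grMul_type (h₁ h₂ : Multiset ℕ → ℚ) {d d' : ℕ} (π : Perm (Fin d))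
    (π' : Perm (Fin d')) (h : π.cycleType = π'.cycleType) :
    grMul (fun σ => h₁ σ.cycleType) (fun σ => h₂ σ.cycleType) π
      = grMul (fun σ => h₁ σ.cycleType) (fun σ => h₂ σ.cycleType) π' := by
  rcases le_total d d' with hd | hd
  · exact grMul_type_le h₁ h₂ hd π π' h
  · exact (grMul_type_le h₁ h₂ hd π' π h.symm).symm

noncomputable def rep (μ : Multiset ℕ) (h : Valid μ) : Perm (Fin μ.sum) :=
  (h.exists_perm le_rfl).choose

lemma rep_type (μ : Multiset ℕ) (h : Valid μ) : (rep μ h).cycleType = μ :=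
  (h.exists_perm le_rfl).choose_spec

def ofFun (h : Multiset ℕ → ℚ) (d : ℕ) : classFun d :=
  ⟨fun σ => h σ.cycleType, fun x σ => by simp only [cycleType_conj]⟩

lemma coe_mul' {d : ℕ} (f g : classFun d) : (f * g).1 = grMul f.1 g.1 := rfl

lemma coe_one' {d : ℕ} : (1 : classFun d).1 = Pi.single 1 1 := rfl

lemma ofFun_one : (1 : ∀ d, classFun d) = ofFun (Pi.single 0 1) := by
  funext d
  refine Subtype.ext (funext fun σ => ?_)
  simp [ofFun, coe_one', Pi.single_apply]

open Classical in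
/-- The stable algebra. -/
noncomputable def Lam : Subalgebra ℚ (∀ d, classFun d) where
  carrier := {F | ∃ h, F = ofFun h}
  mul_mem' := by
    rintro _ _ ⟨h₁, rfl⟩ ⟨h₂, rfl⟩
    refine ⟨fun μ => if h : Valid μ then
      grMul (fun σ => h₁ σ.cycleType) (fun σ => h₂ σ.cycleType) (rep μ h) else 0, ?_⟩
    funext d
    refine Subtype.ext (funext fun σ => ?_)
    simp only [ofFun, dif_pos (valid_type σ)]
    exact grMul_type h₁ h₂ _ _ (rep_type _ _).symm
  add_mem' := by
    rintro _ _ ⟨h₁, rfl⟩ ⟨h₂, rfl⟩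
    exact ⟨h₁ + h₂, rfl⟩
  algebraMap_mem' := fun r => ⟨r • Pi.single 0 1, by
    rw [Algebra.algebraMap_eq_smul_one, ofFun_one]; rfl⟩

noncomputable def mk (h : Multiset ℕ → ℚ) : Lam := ⟨ofFun h, h, rfl⟩

open Classical in
noncomputable def val : Lam →ₗ[ℚ] (Multiset ℕ → ℚ) where
  toFun F μ := if h : Valid μ then (F.1 μ.sum).1 (rep μ h) else 0
  map_add' F G := by funext μ; by_cases h : Valid μ <;> simp [h]
  map_smul' c F := by funext μ; by_cases h : Valid μ <;> simp [h]

lemma val_mk (h : Multiset ℕ → ℚ) {μ : Multiset ℕ} (hμ : Valid μ) : val (mk h) μ = h μ := by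
  simp [val, mk, ofFun, hμ, rep_type]

lemma val_type (F : Lam) {d : ℕ} (σ : Perm (Fin d)) : val F σ.cycleType = (F.1 d).1 σ := by
  obtain ⟨_, h, rfl⟩ := F
  exact val_mk h (valid_type σ)

lemma Lam.ext' {F G : Lam} (h : ∀ μ, Valid μ → val F μ = val G μ) : F = G := by
  refine Subtype.ext (funext fun d => Subtype.ext (funext fun σ => ?_))
  rw [← val_type, ← val_type, h _ (valid_type σ)]

lemma val_mul (F G : Lam) {d : ℕ} (π : Perm (Fin d)) : val (F * G) π.cycleType
    = grMul (fun σ => val F σ.cycleType) (fun σ => val G σ.cycleType) π := by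
  simp only [val_type]
  rfl

noncomputable def K (μ : Multiset ℕ) : Lam := mk (Pi.single μ 1)

lemma val_K (μ : Multiset ℕ) {ν : Multiset ℕ} (hν : Valid ν) :
    val (K μ) ν = if ν = μ then 1 else 0 := by
  rw [K, val_mk _ hν, Pi.single_apply]

lemma K_zero : K 0 = 1 := Subtype.ext ofFun_one.symm

noncomputable def dl (i : ℕ) : Lam := K (Multiset.replicate i 2)

noncomputable def gam (a : ℕ) : Lam := K {a + 1}

lemma dl_apply (i d : ℕ) : (dl i).1 d = delta d i := by
  refine Subtype.ext (funext fun σ => ?_)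
  rw [← val_type, dl, val_K _ (valid_type σ)]
  rfl

/-- The homogeneous part of degree `n`. -/
def H (n : ℕ) : Submodule ℚ Lam where
  carrier := {F | ∀ μ, Valid μ → nrm μ ≠ n → val F μ = 0}
  add_mem' := fun hF hG μ h1 h2 => by simp [hF μ h1 h2, hG μ h1 h2]
  zero_mem' := fun μ _ _ => by simp
  smul_mem' := fun c F hF μ h1 h2 => by simp [hF μ h1 h2]

lemma val_mul_ne_zero {F G : Lam} {μ : Multiset ℕ} (hμ : Valid μ) (h : val (F * G) μ ≠ 0) :
    ∃ σ τ : Perm (Fin μ.sum), (σ * τ).cycleType = μ ∧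
      permNorm σ + permNorm τ = permNorm (σ * τ) ∧
      val F σ.cycleType ≠ 0 ∧ val G τ.cycleType ≠ 0 := by
  rw [← rep_type μ hμ, val_mul] at h
  obtain ⟨σ, τ, h1, h2, h3, h4⟩ := grMul_ne_zero h
  exact ⟨σ, τ, h1 ▸ rep_type μ hμ, h1 ▸ h2, h3, h4⟩

lemma mul_mem_H {a b : ℕ} {F G : Lam} (hF : F ∈ H a) (hG : G ∈ H b) : F * G ∈ H (a + b) := by
  intro μ h1 h2
  by_contra hc
  obtain ⟨σ, τ, h3, h4, h5, h6⟩ := val_mul_ne_zero h1 hc
  have e1 : nrm σ.cycleType = a := by_contra fun e => h5 (hF _ (valid_type σ) e)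
  have e2 : nrm τ.cycleType = b := by_contra fun e => h6 (hG _ (valid_type τ) e)
  rw [nrm_type] at e1 e2
  exact h2 (by rw [← h3, nrm_type, ← h4, e1, e2])

lemma K_mem_H (μ : Multiset ℕ) : K μ ∈ H (nrm μ) := by
  intro ν h1 h2
  rw [val_K _ h1, if_neg]
  rintro rfl
  exact h2 rfl

lemma one_mem_H : (1 : Lam) ∈ H 0 := K_zero ▸ K_mem_H 0

lemma dl_mem_H (i : ℕ) : dl i ∈ H i := by
  have := K_mem_H (Multiset.replicate i 2)
  rwa [show nrm (Multiset.replicate i 2) = i by simp [nrm]; omega] at this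

lemma gam_mem_H (a : ℕ) : gam a ∈ H a := by
  have := K_mem_H {a + 1}
  rwa [show nrm {a + 1} = a by simp [nrm]] at this

/-- The cycle types of norm `n`. -/
def types (n : ℕ) : Finset (Multiset ℕ) :=
  (univ.filter fun σ : Perm (Fin (2 * n)) => permNorm σ = n).image cycleType

lemma mem_types {n : ℕ} {μ : Multiset ℕ} : μ ∈ types n ↔ Valid μ ∧ nrm μ = n := by
  rw [types, mem_image]
  constructor
  · rintro ⟨σ, h, rfl⟩
    exact ⟨valid_type σ, by rw [nrm_type]; simpa using h⟩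
  · rintro ⟨h1, h2⟩
    have := h1.two_mul_card_le
    obtain ⟨σ, rfl⟩ := h1.exists_perm (d := 2 * n) (by rw [nrm] at h2; omega)
    exact ⟨σ, by rw [nrm_type] at h2; simpa using h2, rfl⟩

lemma eq_sum_K {n : ℕ} {F : Lam} (hF : F ∈ H n) : F = ∑ μ ∈ types n, val F μ • K μ := by
  refine Lam.ext' fun ν hν => ?_
  rw [map_sum, Finset.sum_apply]
  simp only [map_smul, Pi.smul_apply, val_K _ hν, smul_eq_mul, mul_ite, mul_one, mul_zero,
    sum_ite_eq]
  split_ifs with h
  · rfl
  · exact hF ν hν fun e => h (mem_types.mpr ⟨hν, e⟩)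

instance (n : ℕ) : FiniteDimensional ℚ (H n) := by
  have := FiniteDimensional.span_of_finite ℚ ((types n).finite_toSet.image K)
  refine Submodule.finiteDimensional_of_le (S₂ := Submodule.span ℚ (K '' types n)) fun F hF => ?_
  rw [eq_sum_K hF]
  exact Submodule.sum_mem _ fun μ hμ =>
    Submodule.smul_mem _ _ (Submodule.subset_span ⟨μ, hμ, rfl⟩)

lemma eq_smul_one {F : Lam} (hF : F ∈ H 0) : F = val F 0 • 1 := by
  refine Lam.ext' fun ν hν => ?_
  rw [map_smul, ← K_zero, Pi.smul_apply, val_K _ hν]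
  split_ifs with h
  · simp [h]
  · have := hν.two_mul_card_le
    have h2 : Multiset.card ν ≠ 0 := by simpa using h
    rw [hF ν hν (by rw [nrm]; omega)]
    simp

lemma val_K_mul_K {α β μ : Multiset ℕ} (hμ : Valid μ) (h : val (K α * K β) μ ≠ 0) :
    μ = α + β ∨ μ.sum < α.sum + β.sum := by
  obtain ⟨σ, τ, h1, -, h3, h4⟩ := val_mul_ne_zero hμ h
  rw [val_K _ (valid_type _)] at h3 h4
  have e1 : σ.cycleType = α := by by_contra e; exact h3 (if_neg e)
  have e2 : τ.cycleType = β := by by_contra e; exact h4 (if_neg e)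
  by_cases hd : _root_.Disjoint σ.support τ.support
  · left
    rw [← h1, (disjoint_iff_disjoint_support.mpr hd).cycleType_mul, e1, e2]
  · right
    rw [← h1, ← e1, ← e2, sum_cycleType, sum_cycleType, sum_cycleType]
    have a1 := card_le_card (support_mul_le σ τ)
    have a2 := card_union_add_card_inter σ.support τ.support
    have a3 : 0 < (σ.support ∩ τ.support).card :=
      card_pos.mpr (not_disjoint_iff_nonempty_inter.mp hd)
    rw [sup_eq_union] at a1
    omega

lemma val_gam_mul_K {a : ℕ} {ν : Multiset ℕ} (h : Valid ((a + 1) ::ₘ ν)) :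
    val (gam a * K ν) ((a + 1) ::ₘ ν) ≠ 0 := by
  have h0 := rep_type _ h
  obtain ⟨c, τ, h1, h2, h3, h4⟩ :=
    mem_cycleType_iff.mp (h0.symm ▸ Multiset.mem_cons_self (a + 1) ν)
  have e1 : c.cycleType = {a + 1} := by rw [h3.cycleType, h4]
  have e2 : τ.cycleType = ν := by
    rw [h1, h2.cycleType_mul, e1, Multiset.singleton_add] at h0
    exact (Multiset.cons_inj_right _).mp h0
  rw [← h0, val_mul, h1]
  refine ne_of_gt (sum_pos' (fun σ _ => ?_) ⟨c, mem_univ _, ?_⟩)
  · simp only [gam, val_K _ (valid_type _)]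
    split_ifs <;> norm_num
  · rw [inv_mul_cancel_left, if_pos (permNorm_disjoint h2).symm]
    simp only [gam, val_K _ (valid_type _)]
    simp [e1, e2]

/-- Decomposable elements of degree `n`. -/
noncomputable def Dec (n : ℕ) : Submodule ℚ Lam :=
  Submodule.span ℚ {x | ∃ a b, 1 ≤ a ∧ 1 ≤ b ∧ a + b = n ∧ ∃ F ∈ H b, x = gam a * F}

lemma K_mem_sup {n : ℕ} (hn : 1 ≤ n) (s : ℕ) : ∀ ρ ∈ types n, ρ.sum = s →
    K ρ ∈ Dec n ⊔ Submodule.span ℚ {gam n} := by
  induction s using Nat.strong_induction_on with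
  | _ s ih =>
  intro ρ hρ hs
  obtain ⟨h1, h2⟩ := mem_types.mp hρ
  obtain ⟨c, hc⟩ := Multiset.exists_mem_of_ne_zero (s := ρ) (by
    rintro rfl; simp [nrm] at h2; omega)
  obtain ⟨a, rfl⟩ : ∃ a, c = a + 1 := ⟨c - 1, by have := h1 c hc; omega⟩
  have ha : 1 ≤ a := by have := h1 _ hc; omega
  obtain ⟨ν, rfl⟩ := Multiset.exists_cons_of_mem hc
  have hν : Valid ν := fun b hb => h1 b (Multiset.mem_cons_of_mem hb)
  have hnr : a + nrm ν = n := by
    have := hν.two_mul_card_le
    simp only [nrm, Multiset.sum_cons, Multiset.card_cons] at h2 ⊢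
    omega
  have hH : gam a * K ν ∈ H n := hnr ▸ mul_mem_H (gam_mem_H a) (K_mem_H ν)
  have hmem : gam a * K ν ∈ Dec n ⊔ Submodule.span ℚ {gam n} := by
    rcases Nat.eq_zero_or_pos (nrm ν) with h0 | h0
    · refine Submodule.mem_sup_right ?_
      rw [eq_smul_one (F := K ν) (h0 ▸ K_mem_H ν), mul_smul_comm, mul_one, show a = n by omega]
      exact Submodule.smul_mem _ _ (Submodule.mem_span_singleton_self _)
    · exact Submodule.mem_sup_left
        (Submodule.subset_span ⟨a, nrm ν, ha, h0, hnr, _, K_mem_H ν, rfl⟩)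
  have hrest : ∑ μ ∈ (types n).erase ((a + 1) ::ₘ ν), val (gam a * K ν) μ • K μ
      ∈ Dec n ⊔ Submodule.span ℚ {gam n} := by
    refine Submodule.sum_mem _ fun μ hμ => ?_
    rw [mem_erase] at hμ
    by_cases h0 : val (gam a * K ν) μ = 0
    · rw [h0, zero_smul]; exact Submodule.zero_mem _
    refine Submodule.smul_mem _ _ (ih μ.sum ?_ μ hμ.2 rfl)
    rcases val_K_mul_K (mem_types.mp hμ.2).1 h0 with e | e
    · exact absurd (e.trans (Multiset.singleton_add _ _)) hμ.1
    · simpa [← hs] using e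
  rw [eq_sum_K hH, ← add_sum_erase _ _ hρ] at hmem
  exact (Submodule.smul_mem_iff _ (val_gam_mul_K h1)).mp
    ((Submodule.add_mem_iff_left _ hrest).mp hmem)

lemma H_le_sup {n : ℕ} (hn : 1 ≤ n) : H n ≤ Dec n ⊔ Submodule.span ℚ {gam n} := by
  intro F hF
  rw [eq_sum_K hF]
  exact Submodule.sum_mem _ fun μ hμ => Submodule.smul_mem _ _ (K_mem_sup hn _ μ hμ rfl)

/-- Removing a transposition: a derivation of the stable algebra. -/
noncomputable def der (F : Lam) : Lam := mk fun μ => val F (2 ::ₘ μ)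

lemma val_mul_cons (F G : Lam) {μ : Multiset ℕ} (hμ : Valid μ) :
    val (F * G) (2 ::ₘ μ) = val (F * der G) μ + val (der F * G) μ := by
  obtain ⟨π, hπ⟩ : ∃ π : Perm (Fin (μ.sum + 2)), π.cycleType = μ := hμ.exists_perm (by omega)
  have h1 : 1 < π.supportᶜ.card := by
    rw [card_compl, ← sum_cycleType, hπ]; simp
  obtain ⟨a, ha, b, hb, hab⟩ := one_lt_card.mp h1
  rw [mem_compl, notMem_support] at ha hb
  rw [← hπ, ← cycleType_mul_swap hab ha hb, val_mul, val_mul, val_mul, grMul_peel _ _ hab ha hb]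
  have key : ∀ (F : Lam) (σ : Perm (Fin (μ.sum + 2))), (∀ x, π x = x → σ x = x) →
      val F (σ * swap a b).cycleType = val (der F) σ.cycleType := by
    intro F σ h
    rw [cycleType_mul_swap hab (h a ha) (h b hb), der, val_mk _ (valid_type σ)]
  congr 1
  · exact grMul_congr (fun _ _ => rfl) (key G)
  · exact grMul_congr (key F) (fun _ _ => rfl)

lemma Valid.cons_two {μ : Multiset ℕ} (h : Valid μ) : Valid (2 ::ₘ μ) := fun a ha => by
  rcases Multiset.mem_cons.mp ha with rfl | ha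
  · exact le_rfl
  · exact h a ha

lemma der_K_cons (μ : Multiset ℕ) : der (K (2 ::ₘ μ)) = K μ := by
  refine Lam.ext' fun ν hν => ?_
  rw [der, val_mk _ hν, val_K _ hν.cons_two, val_K _ hν]
  simp

lemma der_K_zero : der (K 0) = 0 := by
  refine Lam.ext' fun ν hν => ?_
  rw [der, val_mk _ hν, val_K _ hν.cons_two]
  simp

end Pool.Agent.MP_15ac55_ag
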