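import Mathlib
import Pool.Agent.MP_15ac55_ag.Stable

/-!
The class sum of products of `n` disjoint transpositions is indecomposable.
-/

set_option autoImplicit false

open Finset Equiv Equiv.Perm Polynomial

namespace Pool.Agent.MP_15ac55_ag

section general

variable {α : Type} [Fintype α] [DecidableEq α]

def Wt (τ : Perm α) : ℚ := (τ.cycleType.prod : ℕ)

def eta (p : α) : Perm α → ℚ := fun σ => ∑ i ∈ univ.erase p, if σ = swap p i then 1 else 0

lemma permNorm_swap {p i : α} (h : p ≠ i) : permNorm (swap p i) = 1 := by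
  simpa using permNorm_mul_swap (ρ := 1) h rfl

lemma sum_eta (p : α) (G h : Perm α → ℚ) : ∑ π, grMul (eta p) G π * h π
    = ∑ τ, G τ * ∑ i ∈ (orb τ p)ᶜ, h (swap p i * τ) := by
  rw [sum_grMul]
  refine sum_congr rfl fun τ _ => ?_
  congr 1
  have e1 : ∀ σ : Perm α, (if permNorm σ + permNorm τ = permNorm (σ * τ) then eta p σ * h (σ * τ)
      else 0) = ∑ i ∈ univ.erase p, if σ = swap p i then
        (if permNorm σ + permNorm τ = permNorm (σ * τ) then h (σ * τ) else 0) else 0 := by
    intro σ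
    split_ifs with h1
    · simp only [eta, sum_mul, ite_mul, one_mul, zero_mul]
    · simp
  simp_rw [e1]
  rw [sum_comm]
  simp only [sum_ite_eq', mem_univ, if_true]
  rw [← sum_filter]
  refine sum_congr ?_ fun _ _ => rfl
  ext i
  simp only [mem_filter, mem_erase, mem_univ, and_true, mem_compl, mem_orb]
  constructor
  · rintro ⟨h1, h2⟩
    rw [permNorm_swap h1.symm] at h2
    exact permNorm_swap_mul_iff.mp (by omega)
  · intro h1
    have h2 : i ≠ p := fun e => h1 (e ▸ SameCycle.rfl)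
    rw [permNorm_swap h2.symm, permNorm_merge h1]
    exact ⟨h2, add_comm _ _⟩

lemma sum_inv_len (τ : Perm α) :
    ∑ x, (1 : ℚ) / len τ x = Fintype.card α - (permNorm τ : ℚ) := by
  have := cycSum_one τ
  rw [cycSum] at this
  apply Rat.cast_injective (α := ℝ)
  push_cast
  exact this

lemma sum_inv_len_compl (τ : Perm α) (p : α) :
    ∑ x ∈ (orb τ p)ᶜ, (1 : ℚ) / len τ x = Fintype.card α - (permNorm τ : ℚ) - 1 := by
  have h1 := sum_orb (fun _ => 1) τ p
  have h2 : ∑ x ∈ orb τ p, (1 : ℚ) / len τ x = 1 := by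
    apply Rat.cast_injective (α := ℝ)
    push_cast
    exact h1
  rw [← sum_inv_len, ← sum_add_sum_compl (orb τ p), h2]
  ring

lemma Wt_merge {τ : Perm α} {p i : α} (h : ¬SameCycle τ p i) :
    Wt (swap p i * τ) = Wt τ * (1 / len τ p + 1 / len τ i) := by
  have h1 := prod_merge h
  have h2 : (0 : ℚ) < len τ p := by exact_mod_cast len_pos _ _
  have h3 : (0 : ℚ) < len τ i := by exact_mod_cast len_pos _ _
  have h4 : Wt (swap p i * τ) * (len τ p * len τ i) = Wt τ * (len τ p + len τ i) := by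
    simp only [Wt]; exact_mod_cast h1
  field_simp
  linarith

def uu (p : α) (G : Perm α → ℚ) : ℚ := ∑ τ, G τ * (Wt τ / len τ p)

def ww (G : Perm α → ℚ) : ℚ := ∑ τ, G τ * Wt τ

def Hom (G : Perm α → ℚ) (j : ℕ) : Prop := ∀ τ, G τ ≠ 0 → permNorm τ = j

lemma uu_eta (p : α) {G : Perm α → ℚ} {j : ℕ} (hG : Hom G j) :
    uu p (grMul (eta p) G) = (Fintype.card α - j - 1) * uu p G := by
  rw [uu, sum_eta, uu, mul_sum]
  refine sum_congr rfl fun τ _ => ?_
  by_cases h0 : G τ = 0
  · simp [h0]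
  rw [← hG τ h0, ← sum_inv_len_compl τ p, mul_left_comm, sum_mul]
  congr 1
  refine sum_congr rfl fun i hi => ?_
  rw [mem_compl, mem_orb] at hi
  have h2 : (0 : ℚ) < len τ p := by exact_mod_cast len_pos _ _
  have h3 : (0 : ℚ) < len τ i := by exact_mod_cast len_pos _ _
  rw [Wt_merge hi, len_merge hi]
  push_cast
  field_simp
  ring

lemma ww_eta (p : α) {G : Perm α → ℚ} {j : ℕ} (hG : Hom G j) :
    ww (grMul (eta p) G) = (Fintype.card α - j - 2) * ww G + Fintype.card α * uu p G := by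
  rw [ww, sum_eta, uu, ww, mul_sum, mul_sum, ← sum_add_distrib]
  refine sum_congr rfl fun τ _ => ?_
  by_cases h0 : G τ = 0
  · simp [h0]
  rw [sum_congr rfl (fun i hi => Wt_merge (by simpa using hi)), ← mul_sum, sum_add_distrib,
    sum_inv_len_compl, sum_const, card_compl, nsmul_eq_mul, Nat.cast_sub (card_le_univ _),
    hG τ h0]
  have h2 : (0 : ℚ) < len τ p := by exact_mod_cast len_pos _ _
  change _ * (_ * ((_ - (len τ p : ℚ)) * _ + _)) = _
  field_simp
  ring

lemma eta_ne_zero {p : α} {σ : Perm α} (h : eta p σ ≠ 0) : ∃ i, p ≠ i ∧ σ = swap p i := by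
  obtain ⟨i, h1, h2⟩ := exists_ne_zero_of_sum_ne_zero h
  refine ⟨i, (mem_erase.mp h1).1.symm, ?_⟩
  by_contra hc
  exact h2 (if_neg hc)

lemma Hom.eta_mul (p : α) {G : Perm α → ℚ} {j : ℕ} (hG : Hom G j) :
    Hom (grMul (eta p) G) (j + 1) := by
  intro π h
  obtain ⟨σ, τ, -, h2, h3, h4⟩ := grMul_ne_zero h
  obtain ⟨i, h5, rfl⟩ := eta_ne_zero h3
  rw [← h2, permNorm_swap h5, hG τ h4, add_comm]

def etaPow (p : α) (G : Perm α → ℚ) : ℕ → Perm α → ℚ
  | 0 => G
  | a + 1 => grMul (eta p) (etaPow p G a)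

lemma Hom.etaPow (p : α) {G : Perm α → ℚ} {j : ℕ} (hG : Hom G j) (a : ℕ) :
    Hom (etaPow p G a) (j + a) := by
  induction a with
  | zero => exact hG
  | succ a ih => exact ih.eta_mul p

lemma etaPow_eq (p : α) (G : Perm α → ℚ) (a : ℕ) :
    etaPow p G a = grMul (etaPow p (Pi.single 1 1) a) G := by
  induction a with
  | zero => exact (grMul_one_left G).symm
  | succ a ih => rw [etaPow, etaPow, grMul_assoc, ← ih]

def fall (x : ℚ) (a : ℕ) : ℚ := ∏ t ∈ range a, (x - 1 - t)

lemma sum_etaPow {G : Perm α → ℚ} {j : ℕ} (hG : Hom G j) (a : ℕ) :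
    ∑ p, uu p (etaPow p G a) = (Fintype.card α - j) * fall (Fintype.card α - j) a * ww G ∧
    ∑ p, ww (etaPow p G a) = (a + 1) * Fintype.card α * fall (Fintype.card α - j) a * ww G := by
  induction a with
  | zero =>
    constructor
    · simp only [etaPow, uu, ww, fall, range_zero, prod_empty, mul_one, mul_sum]
      rw [sum_comm]
      refine sum_congr rfl fun τ _ => ?_
      by_cases h0 : G τ = 0
      · simp [h0]
      rw [← hG τ h0, ← sum_inv_len, sum_mul]
      exact sum_congr rfl fun p _ => by ring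
    · simp [etaPow, fall]
  | succ a ih =>
    simp only [etaPow, uu_eta _ (hG.etaPow _ a), ww_eta _ (hG.etaPow _ a), sum_add_distrib,
      ← mul_sum, ih.1, ih.2, fall, prod_range_succ]
    push_cast
    constructor <;> ring

lemma hom_one : Hom (Pi.single 1 1 : Perm α → ℚ) 0 := by
  intro τ h
  by_cases e : τ = 1
  · simp [e]
  · simp [e] at h

lemma etaPow_support (p : α) (a : ℕ) : ∀ σ : Perm α, etaPow p (Pi.single 1 1) a σ ≠ 0 →
    (insert p σ.support).card ≤ a + 1 := by
  induction a with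
  | zero =>
    intro σ h
    by_cases e : σ = 1
    · simp [e]
    · simp [etaPow, e] at h
  | succ a ih =>
    intro π h
    obtain ⟨σ, τ, rfl, -, h3, h4⟩ := grMul_ne_zero h
    obtain ⟨i, h5, rfl⟩ := eta_ne_zero h3
    have h6 : insert p (swap p i * τ).support ⊆ insert i (insert p τ.support) := by
      intro x hx
      rcases mem_insert.mp hx with rfl | hx
      · simp
      · have := support_mul_le _ _ hx
        rw [support_swap h5] at this
        simp only [sup_eq_union, mem_union, mem_insert, mem_singleton] at this ⊢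
        tauto
    exact (card_le_card h6).trans ((card_insert_le _ _).trans (Nat.succ_le_succ (ih τ h4)))

lemma etaPow_type (p : α) {a : ℕ} (ha : 1 ≤ a) {σ : Perm α}
    (h : etaPow p (Pi.single 1 1) a σ ≠ 0) : σ.cycleType = {a + 1} := by
  have h1 := (card_le_card (subset_insert p σ.support)).trans (etaPow_support p a σ h)
  have h2 := hom_one.etaPow p a σ h
  have h3 := permNorm_add_card σ
  have h4 := two_mul_card_le σ
  rw [← sum_cycleType] at h1
  have h5 : Multiset.card σ.cycleType ≠ 0 := fun e => by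
    rw [card_cycleType_eq_zero.mp e] at h2
    simp at h2
    omega
  obtain ⟨c, hc⟩ := Multiset.card_eq_one.mp (show Multiset.card σ.cycleType = 1 by omega)
  rw [hc] at h3 ⊢
  simp at h3
  congr 1
  omega

lemma grMul_conj' (f g : Perm α → ℚ) (x π : Perm α) : grMul f g (x * π * x⁻¹)
    = grMul (fun σ => f (x * σ * x⁻¹)) (fun σ => g (x * σ * x⁻¹)) π := by
  simp only [grMul]
  rw [← Equiv.sum_comp (MulAut.conj x).toEquiv]
  refine sum_congr rfl fun σ _ => ?_
  have e : (x * σ * x⁻¹)⁻¹ * (x * π * x⁻¹) = x * (σ⁻¹ * π) * x⁻¹ := by group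
  simp only [MulEquiv.toEquiv_eq_coe, EquivLike.coe_coe, MulAut.conj_apply, e, permNorm_conj]

lemma eta_conj (p : α) (x σ : Perm α) : eta (x p) (x * σ * x⁻¹) = eta p σ := by
  simp only [eta]
  symm
  refine sum_equiv x (by simp) fun i _ => if_congr ?_ rfl rfl
  rw [swap_apply_apply]
  simp

lemma etaPow_conj (p : α) (x : Perm α) (a : ℕ) : ∀ σ : Perm α,
    etaPow (x p) (Pi.single 1 1) a (x * σ * x⁻¹) = etaPow p (Pi.single 1 1) a σ := by
  induction a with
  | zero => exact single_conj x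
  | succ a ih =>
    intro σ
    rw [etaPow, etaPow, grMul_conj']
    simp only [eta_conj, ih]

lemma exists_piA {a : ℕ} (ha : 1 ≤ a) : ∃ c : ℚ, ∑ p : α, etaPow p (Pi.single 1 1) a
    = c • fun σ : Perm α => if σ.cycleType = {a + 1} then (1 : ℚ) else 0 := by
  have h0 : ∀ σ : Perm α, σ.cycleType ≠ {a + 1} →
      (∑ p : α, etaPow p (Pi.single 1 1) a) σ = 0 := by
    intro σ h
    rw [Finset.sum_apply]
    exact sum_eq_zero fun p _ => by_contra fun hc => h (etaPow_type p ha hc)
  by_cases hex : ∃ σ₀ : Perm α, σ₀.cycleType = {a + 1}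
  · obtain ⟨σ₀, h⟩ := hex
    refine ⟨(∑ p : α, etaPow p (Pi.single 1 1) a) σ₀, funext fun σ => ?_⟩
    by_cases e : σ.cycleType = {a + 1}
    · obtain ⟨x, rfl⟩ := isConj_iff.mp (isConj_of_cycleType_eq (h.trans e.symm))
      simp only [Finset.sum_apply, Pi.smul_apply, e, if_true, smul_eq_mul, mul_one]
      rw [← Equiv.sum_comp x]
      simp only [etaPow_conj]
    · rw [h0 σ e]; simp [e]
  · exact ⟨0, funext fun σ => by rw [h0 σ fun e => hex ⟨σ, e⟩]; simp⟩

lemma ww_smul (c : ℚ) (G : Perm α → ℚ) : ww (c • G) = c * ww G := by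
  simp [ww, mul_sum, mul_assoc]

lemma ww_sum {ι : Type} (s : Finset ι) (G : ι → Perm α → ℚ) :
    ww (∑ i ∈ s, G i) = ∑ i ∈ s, ww (G i) := by
  simp only [ww, Finset.sum_apply, sum_mul]
  rw [sum_comm]

lemma ww_cycle_mul {a : ℕ} (ha : 1 ≤ a) (hα : 0 < Fintype.card α) {G : Perm α → ℚ} {j : ℕ}
    (hG : Hom G j) :
    ww (grMul (fun σ : Perm α => if σ.cycleType = {a + 1} then (1 : ℚ) else 0) G)
        * fall (Fintype.card α) a
      = ww (fun σ : Perm α => if σ.cycleType = {a + 1} then (1 : ℚ) else 0)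
        * fall (Fintype.card α - j) a * ww G := by
  obtain ⟨c, hc⟩ := exists_piA (α := α) ha
  set γ : Perm α → ℚ := fun σ : Perm α => if σ.cycleType = {a + 1} then (1 : ℚ) else 0
  have h1 := (sum_etaPow hG a).2
  have h2 := (sum_etaPow (hom_one (α := α)) a).2
  have h3 : ww (Pi.single 1 1 : Perm α → ℚ) = 1 := by
    rw [ww, sum_eq_single 1]
    · simp [Wt]
    · intro σ _ h; simp [h]
    · simp
  simp_rw [etaPow_eq _ G] at h1
  rw [← ww_sum, ← grMul_sum_left, hc, grMul_smul_left, ww_smul] at h1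
  rw [← ww_sum, hc, ww_smul, h3, Nat.cast_zero, sub_zero, mul_one] at h2
  have h4 : (0 : ℚ) < (a + 1) * Fintype.card α := by positivity
  refine mul_left_cancel₀ h4.ne' ?_
  linear_combination ww γ * h1 - ww (grMul γ G) * h2

end general

noncomputable def chi (D : ℕ) : Lam →ₗ[ℚ] ℚ where
  toFun F := ww (F.1 D).1
  map_add' F G := by simp [ww, add_mul, sum_add_distrib]
  map_smul' c F := by simp [ww, mul_sum, mul_assoc]

lemma cast_descFactorial (D s : ℕ) : (D.descFactorial (s + 1) : ℚ) = D * fall D s := by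
  have : ∀ s, (D.descFactorial s : ℚ) = ∏ t ∈ range s, ((D : ℚ) - t) := by
    intro s
    induction s with
    | zero => simp
    | succ s ih =>
      rw [prod_range_succ, ← ih, Nat.descFactorial_succ, Nat.cast_mul, mul_comm]
      rcases le_or_gt s D with h | h
      · rw [Nat.cast_sub h]
      · rw [Nat.descFactorial_eq_zero_iff_lt.mpr h]; simp
  rw [this, prod_range_succ', fall, mul_comm]
  simp only [Nat.cast_zero, sub_zero, Nat.cast_add, Nat.cast_one]
  congr 1
  exact prod_congr rfl fun t _ => by ring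

lemma chi_K {μ : Multiset ℕ} (hμ : Valid μ) (D : ℕ) : chi D (K μ)
    = (D.descFactorial μ.sum : ℚ) / ((∏ n ∈ μ.toFinset, (μ.count n).factorial : ℕ) : ℚ) := by
  have h1 : chi D (K μ) = (univ.filter fun g : Perm (Fin D) => g.cycleType = μ).card
      * ((μ.prod : ℕ) : ℚ) := by
    change ww _ = _
    rw [ww, ← nsmul_eq_mul, ← sum_const, sum_filter]
    refine sum_congr rfl fun σ _ => ?_
    rw [← val_type, val_K _ (valid_type σ)]
    split_ifs with h
    · rw [one_mul, Wt, h]
    · simp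
  have h2 := card_of_cycleType_mul_eq (Fin D) μ
  have h3 : (0 : ℚ) < ((∏ n ∈ μ.toFinset, (μ.count n).factorial : ℕ) : ℚ) := by
    exact_mod_cast Finset.prod_pos fun n _ => Nat.factorial_pos _
  rw [h1, eq_div_iff h3.ne']
  rw [Fintype.card_fin] at h2
  by_cases h : μ.sum ≤ D
  · rw [if_pos ⟨h, hμ⟩, ← Nat.factorial_mul_descFactorial h] at h2
    have h4 : (univ.filter fun g : Perm (Fin D) => g.cycleType = μ).card * μ.prod
        * (∏ n ∈ μ.toFinset, (μ.count n).factorial) = D.descFactorial μ.sum := by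
      refine Nat.eq_of_mul_eq_mul_left (Nat.factorial_pos (D - μ.sum)) ?_
      rw [← h2]; ring
    exact_mod_cast h4
  · have h4 := (card_of_cycleType_eq_zero_iff (Fin D) (m := μ)).mpr (by
      rw [Fintype.card_fin]; exact fun a => h a.1)
    rw [h4, Nat.descFactorial_eq_zero_iff_lt.mpr (not_le.mp h)]
    simp

noncomputable def fallP (j : ℚ) (a : ℕ) : ℚ[X] := ∏ t ∈ range a, (X - C (j + 1 + t))

lemma eval_fallP (j x : ℚ) (a : ℕ) : (fallP j a).eval x = fall (x - j) a := by
  rw [fallP, eval_prod, fall]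
  exact prod_congr rfl fun t _ => by simp; ring

lemma fall_zero_ne (a : ℕ) : fall 0 a ≠ 0 :=
  prod_ne_zero_iff.mpr fun t _ => by
    have : (0 : ℚ) ≤ t := Nat.cast_nonneg t
    linarith

lemma poly_eq {p q : ℚ[X]} (h : ∀ D : ℕ, 1 ≤ D → p.eval (D : ℚ) = q.eval (D : ℚ)) : p = q := by
  refine eq_of_infinite_eval_eq p q (Set.infinite_of_injective_forall_mem
    (f := fun D : ℕ => ((D + 1 : ℕ) : ℚ)) (fun a b e => by simpa using e) fun D => ?_)
  exact h (D + 1) (by omega)

lemma good_of_mem_H {j : ℕ} (hj : 1 ≤ j) {F : Lam} (hF : F ∈ H j) :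
    ∃ r : ℚ[X], ∀ D : ℕ, chi D F = D * r.eval (D : ℚ) := by
  refine ⟨∑ μ ∈ types j, C (val F μ / ((∏ n ∈ μ.toFinset, (μ.count n).factorial : ℕ) : ℚ))
    * fallP 0 (μ.sum - 1), fun D => ?_⟩
  conv_lhs => rw [eq_sum_K hF]
  rw [map_sum, eval_finsetSum, mul_sum]
  refine sum_congr rfl fun μ hμ => ?_
  obtain ⟨h1, h2⟩ := mem_types.mp hμ
  obtain ⟨s, hs⟩ : ∃ s, μ.sum = s + 1 := ⟨μ.sum - 1, by rw [nrm] at h2; omega⟩
  rw [map_smul, chi_K h1, hs, cast_descFactorial, eval_mul, eval_C, eval_fallP]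
  simp only [smul_eq_mul, Nat.add_sub_cancel, sub_zero]
  ring

lemma good2_of_mem_Dec {n : ℕ} {x : Lam} (hx : x ∈ Dec n) :
    ∃ r : ℚ[X], r.eval 0 = 0 ∧ ∀ D : ℕ, chi D x = D * r.eval (D : ℚ) := by
  induction hx using Submodule.span_induction with
  | zero => exact ⟨0, by simp, by simp⟩
  | add x y _ _ hx hy =>
    obtain ⟨r, h1, h2⟩ := hx
    obtain ⟨r', h3, h4⟩ := hy
    exact ⟨r + r', by simp [h1, h3], fun D => by simp [h2, h4, mul_add]⟩
  | smul c x _ hx =>
    obtain ⟨r, h1, h2⟩ := hx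
    exact ⟨C c * r, by simp [h1], fun D => by simp [h2]; ring⟩
  | mem x hx =>
    obtain ⟨a, b, ha, hb, -, F, hF, rfl⟩ := hx
    obtain ⟨r₁, h1⟩ := good_of_mem_H (j := a + b) (by omega) (mul_mem_H (gam_mem_H a) hF)
    obtain ⟨r₂, h2⟩ := good_of_mem_H ha (gam_mem_H a)
    obtain ⟨r₃, h3⟩ := good_of_mem_H hb hF
    refine ⟨r₁, ?_, h1⟩
    have key : r₁ * fallP 0 a = X * (r₂ * fallP b a * r₃) := by
      refine poly_eq fun D hD => ?_
      have e1 : ((gam a).1 D).1
          = fun σ : Perm (Fin D) => if σ.cycleType = {a + 1} then (1 : ℚ) else 0 := by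
        funext σ
        rw [← val_type, gam, val_K _ (valid_type σ)]
      have e2 : Hom (F.1 D).1 b := fun τ h => by
        rw [← nrm_type]
        by_contra hc
        exact h (by rw [← val_type]; exact hF _ (valid_type τ) hc)
      have h4 := ww_cycle_mul (α := Fin D) ha (by rw [Fintype.card_fin]; omega) e2
      rw [← e1, Fintype.card_fin] at h4
      change chi D (gam a * F) * _ = chi D (gam a) * _ * chi D F at h4
      rw [h1, h2, h3] at h4
      have h5 : (D : ℚ) ≠ 0 := by positivity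
      simp only [eval_mul, eval_X, eval_fallP, sub_zero]
      refine mul_left_cancel₀ h5 ?_
      linear_combination h4
    have := congrArg (eval 0) key
    simp only [eval_mul, eval_X, zero_mul, eval_fallP, sub_zero] at this
    exact (mul_eq_zero.mp this).resolve_right (fall_zero_ne a)

theorem dl_not_mem_Dec {n : ℕ} (hn : 1 ≤ n) : dl n ∉ Dec n := by
  intro h
  obtain ⟨r, h1, h2⟩ := good2_of_mem_Dec h
  have hv : Valid (Multiset.replicate n 2) := fun a ha => (Multiset.eq_of_mem_replicate ha).ge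
  set c : ℚ := ((∏ k ∈ (Multiset.replicate n 2).toFinset,
    ((Multiset.replicate n 2).count k).factorial : ℕ) : ℚ) with hc
  have hc0 : 0 < c := by
    rw [hc]; exact_mod_cast Finset.prod_pos fun n _ => Nat.factorial_pos _
  obtain ⟨s, hs⟩ : ∃ s, (Multiset.replicate n 2).sum = s + 1 :=
    ⟨n * 2 - 1, by simp; omega⟩
  have key : C c * r = fallP 0 s := by
    refine poly_eq fun D hD => ?_
    have h3 := h2 D
    rw [dl, chi_K hv, hs, cast_descFactorial, ← hc, div_eq_iff hc0.ne'] at h3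
    have h5 : (D : ℚ) ≠ 0 := by positivity
    simp only [eval_mul, eval_C, eval_fallP, sub_zero]
    refine mul_left_cancel₀ h5 ?_
    linear_combination -h3
  have := congrArg (eval 0) key
  simp only [eval_mul, h1, mul_zero, eval_fallP, sub_zero] at this
  exact fall_zero_ne s this.symm

end Pool.Agent.MP_15ac55_ag
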