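import Mathlib
import Pool.Agent.MP_15ac55_ag.Chi

/-!
The stable algebra is the polynomial ring on the `δ_i`, degree by degree.
-/

set_option autoImplicit false

open Finset Equiv Equiv.Perm MvPolynomial Module

namespace Pool.Agent.MP_15ac55_ag

instance : SetLike.GradedMonoid H where
  one_mem := one_mem_H
  mul_mem _ _ _ _ := mul_mem_H

lemma aeval_mem_H {A : Type} [CommRing A] [Algebra ℚ A] (H : ℕ → Submodule ℚ A)
    [SetLike.GradedMonoid H] {σ : Type} (w : σ → ℕ) (x : σ → A) (hx : ∀ i, x i ∈ H (w i)) {n : ℕ}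
    {p : MvPolynomial σ ℚ} (hp : p.IsWeightedHomogeneous w n) : aeval x p ∈ H n := by
  induction hp using IsWeightedHomogeneous.induction_on with
  | zero => simp
  | add p q _ _ h1 h2 => rw [map_add]; exact add_mem h1 h2
  | monomial s r hs =>
    rw [aeval_monomial, ← Algebra.smul_def, ← hs, Finsupp.weight_apply]
    exact Submodule.smul_mem _ _ (SetLike.prod_mem_graded H _ _ fun i _ =>
      SetLike.pow_mem_graded _ (hx i))

noncomputable def Phi : MvPolynomial ℕ ℚ →ₐ[ℚ] Lam := aeval fun i => dl (i + 1)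

noncomputable def PP (n : ℕ) : Submodule ℚ (MvPolynomial ℕ ℚ) :=
  weightedHomogeneousSubmodule ℚ (fun i : ℕ => i + 1) n

lemma Phi_mem_H {n : ℕ} {p : MvPolynomial ℕ ℚ} (hp : p ∈ PP n) : Phi p ∈ H n :=
  aeval_mem_H H _ _ (fun i => dl_mem_H (i + 1)) hp

lemma Phi_surj (n : ℕ) : ∀ F ∈ H n, ∃ p ∈ PP n, Phi p = F := by
  induction n using Nat.strong_induction_on with
  | _ n ih =>
  rcases Nat.eq_zero_or_pos n with rfl | hn
  · intro F hF
    exact ⟨val F 0 • 1, Submodule.smul_mem _ _ (isWeightedHomogeneous_one ℚ _), by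
      rw [map_smul, map_one, ← eq_smul_one hF]⟩
  have h1 : Dec n ≤ (PP n).map Phi.toLinearMap := by
    refine Submodule.span_le.mpr ?_
    rintro _ ⟨a, b, ha, hb, hab, F, hF, rfl⟩
    obtain ⟨p, hp, e1⟩ := ih a (by omega) _ (gam_mem_H a)
    obtain ⟨q, hq, e2⟩ := ih b (by omega) _ hF
    exact ⟨p * q, hab ▸ IsWeightedHomogeneous.mul hp hq, by simp [e1, e2]⟩
  have h2 : dl n ∈ (PP n).map Phi.toLinearMap := by
    obtain ⟨k, rfl⟩ : ∃ k, n = k + 1 := ⟨n - 1, by omega⟩
    exact ⟨X k, isWeightedHomogeneous_X ℚ _ k, by simp [Phi]⟩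
  have h3 : gam n ∈ (PP n).map Phi.toLinearMap := by
    obtain ⟨y, hy, z, hz, e⟩ := Submodule.mem_sup.mp (H_le_sup hn (dl_mem_H n))
    obtain ⟨c, rfl⟩ := Submodule.mem_span_singleton.mp hz
    have hc : c ≠ 0 := by
      rintro rfl
      rw [zero_smul, add_zero] at e
      exact dl_not_mem_Dec hn (e ▸ hy)
    rw [← e] at h2
    exact (Submodule.smul_mem_iff _ hc).mp ((Submodule.add_mem_iff_right _ (h1 hy)).mp h2)
  intro F hF
  exact sup_le h1 ((Submodule.span_singleton_le_iff_mem _ _).mpr h3) (H_le_sup hn hF)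

lemma weight_toFinsupp (ν : Multiset ℕ) :
    Finsupp.weight (fun i : ℕ => i + 1) (Multiset.toFinsupp ν) = ν.sum + Multiset.card ν := by
  induction ν using Multiset.induction_on with
  | empty => simp
  | cons a ν ih =>
    rw [← Multiset.singleton_add, map_add, map_add, ih, Multiset.toFinsupp_singleton,
      Finsupp.weight_single]
    simp
    ring

lemma Valid.sum_map_sub {μ : Multiset ℕ} (h : Valid μ) :
    (μ.map (· - 2)).sum + 2 * Multiset.card μ = μ.sum := by
  induction μ using Multiset.induction_on with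
  | empty => simp
  | cons a μ ih =>
    have h1 := h a (Multiset.mem_cons_self _ _)
    have h2 := ih fun b hb => h b (Multiset.mem_cons_of_mem hb)
    simp only [Multiset.map_cons, Multiset.sum_cons, Multiset.card_cons]
    omega

noncomputable def basisMap : MvPolynomial ℕ ℚ →ₗ[ℚ] Lam where
  toFun p := mk fun μ => coeff (Multiset.toFinsupp (μ.map (· - 2))) p
  map_add' p q := Lam.ext' fun μ hμ => by simp [val_mk _ hμ]
  map_smul' c p := Lam.ext' fun μ hμ => by simp [val_mk _ hμ]

lemma basisMap_injective : Function.Injective basisMap := by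
  rw [injective_iff_map_eq_zero]
  intro p hp
  ext s
  have hv : Valid ((Finsupp.toMultiset s).map (· + 2)) := by
    intro a ha
    obtain ⟨b, -, rfl⟩ := Multiset.mem_map.mp ha
    omega
  have := congrArg (fun F => val F ((Finsupp.toMultiset s).map (· + 2))) hp
  simp only [basisMap, LinearMap.coe_mk, AddHom.coe_mk, val_mk _ hv] at this
  simpa using this

lemma basisMap_mem_H {n : ℕ} {p : MvPolynomial ℕ ℚ} (hp : p ∈ PP n) : basisMap p ∈ H n := by
  intro μ hμ h
  simp only [basisMap, LinearMap.coe_mk, AddHom.coe_mk, val_mk _ hμ]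
  refine IsWeightedHomogeneous.coeff_eq_zero hp _ ?_
  have := hμ.sum_map_sub
  rw [weight_toFinsupp, Multiset.card_map]
  rw [nrm] at h
  omega

lemma Phi_inj {n : ℕ} {p : MvPolynomial ℕ ℚ} (hp : p ∈ PP n) (h : Phi p = 0) : p = 0 := by
  let B : PP n →ₗ[ℚ] H n := basisMap.restrict fun _ => basisMap_mem_H
  let F : PP n →ₗ[ℚ] H n := Phi.toLinearMap.restrict fun _ => Phi_mem_H
  have hB : Function.Injective B := fun a b e =>
    Subtype.ext (basisMap_injective (congrArg Subtype.val e))
  have hF : Function.Surjective F := fun y => by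
    obtain ⟨p, hp, e⟩ := Phi_surj n y.1 y.2
    exact ⟨⟨p, hp⟩, Subtype.ext e⟩
  have : FiniteDimensional ℚ (PP n) := FiniteDimensional.of_injective (V₂ := H n) B hB
  have h1 : finrank ℚ (PP n) = finrank ℚ (H n) :=
    le_antisymm (LinearMap.finrank_le_finrank_of_injective hB)
      (LinearMap.finrank_le_finrank_of_surjective hF)
  have h2 := (LinearMap.injective_iff_surjective_of_finrank_eq_finrank (V := PP n) (V₂ := H n) (f := F)
    h1).mpr hF
  exact congrArg Subtype.val ((injective_iff_map_eq_zero F).mp h2 ⟨p, hp⟩ (Subtype.ext h))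

end Pool.Agent.MP_15ac55_ag
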