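import Mathlib

/-!
Linear algebra lemmas: a dimension count, and ranks of polynomial families of matrices.
-/

set_option autoImplicit false

open Module Polynomial

namespace Pool.Agent.MP_15ac55_ag

lemma finrank_map_add {P Q : Type} [AddCommGroup P] [Module ℚ P] [AddCommGroup Q] [Module ℚ Q]
    (f : P →ₗ[ℚ] Q) (U : Submodule ℚ P) [FiniteDimensional ℚ U] :
    finrank ℚ (U.map f) + finrank ℚ (U ⊓ LinearMap.ker f : Submodule ℚ P) = finrank ℚ U := by
  rw [← (f.domRestrict U).finrank_range_add_finrank_ker, LinearMap.range_domRestrict,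
    LinearMap.ker_domRestrict, ← Submodule.finrank_map_subtype_eq U (Submodule.comap _ _),
    Submodule.map_comap_subtype]

lemma finrank_map_of_inj {P Q : Type} [AddCommGroup P] [Module ℚ P] [AddCommGroup Q] [Module ℚ Q]
    (f : P →ₗ[ℚ] Q) (U : Submodule ℚ P) (h : ∀ p ∈ U, f p = 0 → p = 0) :
    finrank ℚ (U.map f) = finrank ℚ U := by
  rw [← LinearMap.range_domRestrict]
  refine LinearMap.finrank_range_of_inj ((injective_iff_map_eq_zero _).mpr fun p hp => ?_)
  exact Subtype.ext (h p.1 p.2 hp)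

lemma dim_count {P Q L : Type} [AddCommGroup P] [Module ℚ P] [AddCommGroup Q] [Module ℚ Q]
    [AddCommGroup L] [Module ℚ L] (q : P →ₗ[ℚ] Q) (Ψ : P →ₗ[ℚ] L) (U : Submodule ℚ P)
    (W JH : Submodule ℚ L) (x : L) [FiniteDimensional ℚ U] [FiniteDimensional ℚ JH]
    (h1 : ∀ p ∈ U, Ψ p = 0 → p = 0) (h2 : (U ⊓ LinearMap.ker q).map Ψ = U.map Ψ ⊓ W)
    (h3 : JH = (U.map Ψ ⊔ W) ⊔ Submodule.span ℚ {x}) (h4 : x ∉ U.map Ψ ⊔ W) :
    finrank ℚ (U.map q) + finrank ℚ W + 1 = finrank ℚ JH := by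
  have hW : FiniteDimensional ℚ W :=
    Submodule.finiteDimensional_of_le (S₂ := JH) (h3 ▸ le_sup_right.trans le_sup_left)
  have a1 := finrank_map_add q U
  have a2 := finrank_map_of_inj Ψ U h1
  have a3 := finrank_map_of_inj Ψ (U ⊓ LinearMap.ker q) fun p hp => h1 p hp.1
  have a4 := Submodule.finrank_sup_add_finrank_inf_eq (U.map Ψ) W
  have a5 := Submodule.finrank_sup_add_finrank_inf_eq (U.map Ψ ⊔ W) (Submodule.span ℚ {x})
  have hx : x ≠ 0 := by rintro rfl; exact h4 (Submodule.zero_mem _)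
  have a6 : (U.map Ψ ⊔ W) ⊓ Submodule.span ℚ {x} = ⊥ :=
    disjoint_iff.mp ((Submodule.disjoint_span_singleton' hx).mpr h4)
  rw [a6, finrank_bot, finrank_span_singleton hx, ← h3] at a5
  rw [h2] at a3
  omega

lemma rank_eventually_const {B C : Type} [Fintype B] [Fintype C] (M : Matrix B C ℚ[X]) :
    ∃ K r : ℕ, ∀ k ≥ K, (M.map (eval (k : ℚ))).rank = r := by
  classical
  have hbd : ∀ k : ℕ, (M.map (eval (k : ℚ))).rank ≤ Fintype.card C := fun k =>
    Matrix.rank_le_card_width _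
  obtain ⟨k₁, hk₁⟩ : ∃ k₁ : ℕ, ∀ k : ℕ,
      (M.map (eval (k : ℚ))).rank ≤ (M.map (eval (k₁ : ℚ))).rank := by
    obtain ⟨_, ⟨k₁, rfl⟩, h⟩ := Set.Finite.exists_maximal
      (s := Set.range fun k : ℕ => (M.map (eval (k : ℚ))).rank)
      ((Set.finite_le_nat (Fintype.card C)).subset (by rintro _ ⟨k, rfl⟩; exact hbd k))
      (Set.range_nonempty _)
    refine ⟨k₁, fun k => ?_⟩
    by_contra hc
    exact hc (h ⟨k, rfl⟩ (not_le.mp hc).le)
  set r := (M.map (eval (k₁ : ℚ))).rank with hr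
  set f := (M.map (eval (k₁ : ℚ))).mulVecLin with hf
  let b : Basis (Fin r) ℚ (LinearMap.range f) := Module.finBasisOfFinrankEq ℚ _ rfl
  choose x hx using fun j => (b j).2
  obtain ⟨g, hg⟩ := LinearMap.exists_extend (b.equivFun.toLinearMap)
  let L : Matrix (Fin r) B ℚ := LinearMap.toMatrix' g
  let R : Matrix C (Fin r) ℚ := Matrix.of fun c j => x j c
  have hLR : L * M.map (eval (k₁ : ℚ)) * R = 1 := by
    ext i j
    have e1 : g (f (x j)) = b.equivFun (b j) := by
      rw [hx j]; exact LinearMap.congr_fun hg (b j)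
    have e2 : (L * M.map (eval (k₁ : ℚ)) * R) i j = g (f (x j)) i := by
      have : g (f (x j)) = (L * M.map (eval (k₁ : ℚ))).mulVec (x j) := by
        rw [← Matrix.mulVec_mulVec, ← Matrix.toLin'_apply, Matrix.toLin'_toMatrix']
        rfl
      rw [this]
      rfl
    rw [e2, e1, Matrix.one_apply]
    simp [eq_comm]
  set p : ℚ[X] := (L.map Polynomial.C * M * R.map Polynomial.C).det with hp
  have hev : ∀ t : ℚ, p.eval t = (L * M.map (eval t) * R).det := by
    intro t
    have := RingHom.map_det (evalRingHom t) (L.map Polynomial.C * M * R.map Polynomial.C)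
    rw [RingHom.mapMatrix_apply, Matrix.map_mul, Matrix.map_mul, Matrix.map_map,
      Matrix.map_map] at this
    have e : ∀ {m n : Type} (A : Matrix m n ℚ), A.map (evalRingHom t ∘ Polynomial.C) = A :=
      fun A => Matrix.ext fun i j => by simp
    rw [e, e] at this
    exact this
  have hp0 : p ≠ 0 := by
    intro h
    have := hev k₁
    rw [h, hLR] at this
    simp at this
  obtain ⟨K, hK⟩ : ∃ K : ℕ, ∀ k ≥ K, p.eval (k : ℚ) ≠ 0 := by
    have hfin : {k : ℕ | p.eval (k : ℚ) = 0}.Finite :=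
      (Polynomial.finite_setOfPred_isRoot hp0).preimage (f := fun k : ℕ => (k : ℚ))
        Nat.cast_injective.injOn
    obtain ⟨K, hK⟩ := hfin.bddAbove
    exact ⟨K + 1, fun k hk h => by have := hK h; omega⟩
  refine ⟨K, r, fun k hk => le_antisymm (hk₁ k) ?_⟩
  have h1 : (L * M.map (eval (k : ℚ)) * R).rank = r := by
    rw [Matrix.rank_of_isUnit _ ((Matrix.isUnit_iff_isUnit_det _).mpr
      (by rw [← hev]; exact (hK k hk).isUnit)), Fintype.card_fin]
  rw [← h1]
  exact (Matrix.rank_mul_le_left _ _).trans (Matrix.rank_mul_le_right _ _)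

/-- Functions on `ℕ` given by a polynomial. -/
def IsPoly (f : ℕ → ℚ) : Prop := ∃ p : ℚ[X], ∀ k : ℕ, f k = p.eval (k : ℚ)

lemma exists_antidiff (q : ℚ[X]) : ∃ p : ℚ[X], ∀ x : ℚ, p.eval (x + 1) - p.eval x = q.eval x := by
  induction q using Polynomial.induction_on' with
  | add p q hp hq =>
    obtain ⟨a, ha⟩ := hp
    obtain ⟨b, hb⟩ := hq
    exact ⟨a + b, fun x => by simp only [eval_add, ← ha, ← hb]; ring⟩
  | monomial n c =>
    refine ⟨Polynomial.C (c / (n + 1)) * Polynomial.bernoulli (n + 1), fun x => ?_⟩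
    have h := Polynomial.bernoulli_eval_one_add (n + 1) x
    have hn : (n : ℚ) + 1 ≠ 0 := by positivity
    rw [add_comm] at h
    simp only [eval_mul, eval_C, eval_monomial, h, Nat.add_sub_cancel]
    push_cast
    field_simp
    ring

lemma IsPoly.of_diff {f g : ℕ → ℚ} (hg : IsPoly g) (h : ∀ k, f (k + 1) = f k + g k) :
    IsPoly f := by
  obtain ⟨q, hq⟩ := hg
  obtain ⟨p, hp⟩ := exists_antidiff q
  refine ⟨p + Polynomial.C (f 0 - p.eval 0), fun k => ?_⟩
  induction k with
  | zero => simp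
  | succ k ih =>
    rw [h, ih, hq, ← hp]
    simp
    ring

end Pool.Agent.MP_15ac55_ag
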