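import Mathlib
import Pool.Agent.MP_15ac55_ag.Rel

/-!
Stabilisation along a diagonal.
-/

set_option autoImplicit false

open Finset Module Polynomial

namespace Pool.Agent.MP_15ac55_ag

lemma Valid.add_rep {μ : Multiset ℕ} (h : Valid μ) (a : ℕ) :
    Valid (μ + Multiset.replicate a 2) := fun x hx => by
  rcases Multiset.mem_add.mp hx with hx | hx
  · exact h x hx
  · exact (Multiset.eq_of_mem_replicate hx).ge

lemma add_rep_succ (μ : Multiset ℕ) (a : ℕ) :
    μ + Multiset.replicate (a + 1) 2 = 2 ::ₘ (μ + Multiset.replicate a 2) := by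
  rw [Multiset.replicate_succ, Multiset.add_cons]

lemma isPoly_val (ν τ : Multiset ℕ) (hτ : Valid τ) (i : ℕ) : ∀ a b : ℕ, IsPoly fun k =>
    val (dl i * K (ν + Multiset.replicate (a + k) 2)) (τ + Multiset.replicate (b + k) 2) := by
  induction i with
  | zero =>
    intro a b
    refine IsPoly.of_diff (g := fun _ => 0) ⟨0, by simp⟩ fun k => ?_
    rw [← add_assoc, ← add_assoc, add_rep_succ, add_rep_succ, val_mul_cons _ _ (hτ.add_rep _),
      der_K_cons, show der (dl 0) = 0 from der_K_zero]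
    simp
  | succ i ih =>
    intro a b
    refine IsPoly.of_diff (ih (a + 1) b) fun k => ?_
    rw [← add_assoc, ← add_assoc, add_rep_succ τ, val_mul_cons _ _ (hτ.add_rep _),
      show der (dl (i + 1)) = dl i from der_K_cons (Multiset.replicate i 2), add_right_comm a 1 k]
    congr 1
    rw [add_rep_succ, der_K_cons]

/-- The excess of a cycle type. -/
def exc (μ : Multiset ℕ) : ℕ := (μ.map (· - 2)).sum

lemma Valid.exc {μ : Multiset ℕ} (h : Valid μ) : μ.sum + exc μ = 2 * nrm μ := by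
  have h1 := h.sum_map_sub
  have h2 := h.two_mul_card_le
  rw [Pool.Agent.MP_15ac55_ag.exc, nrm]
  omega

lemma exc_add_rep (μ : Multiset ℕ) (a : ℕ) : exc (μ + Multiset.replicate a 2) = exc μ := by
  simp [exc]

lemma Valid.nrm_add_rep {μ : Multiset ℕ} (h : Valid μ) (a : ℕ) :
    nrm (μ + Multiset.replicate a 2) = nrm μ + a := by
  have h2 := h.two_mul_card_le
  simp [nrm]
  omega

lemma nrm_le_exc {μ : Multiset ℕ} (h : ∀ a ∈ μ, 3 ≤ a) : nrm μ ≤ 2 * exc μ := by
  have h1 := Multiset.card_nsmul_le_sum (s := μ) (a := 3) h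
  have h2 : Valid μ := fun a ha => by have := h a ha; omega
  have h3 := h2.exc
  rw [nrm] at h3 ⊢
  rw [smul_eq_mul] at h1
  omega

/-- Cores of excess less than `e`. -/
def cores (e : ℕ) : Finset (Multiset ℕ) :=
  ((range (2 * e)).biUnion types).filter fun ν => exc ν < e

lemma exists_core {e : ℕ} {μ : Multiset ℕ} (h : Valid μ) (he : exc μ < e) :
    ∃ ν ∈ cores e, μ = ν + Multiset.replicate (nrm μ - nrm ν) 2 ∧ exc ν = exc μ := by
  have h1 : μ = μ.filter (fun a => ¬ a = 2) + Multiset.replicate (μ.count 2) 2 := by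
    rw [← Multiset.filter_eq', add_comm, Multiset.filter_add_not]
  set ν := μ.filter (fun a => ¬ a = 2) with hν
  have h2 : ∀ a ∈ ν, 3 ≤ a := fun a ha => by
    rw [hν, Multiset.mem_filter] at ha
    have := h a ha.1
    omega
  have h3 : Valid ν := fun a ha => by have := h2 a ha; omega
  have h4 : exc μ = exc ν := by rw [h1, exc_add_rep]
  have h5 : nrm μ = nrm ν + μ.count 2 := by
    conv_lhs => rw [h1]
    exact h3.nrm_add_rep _
  have h6 := nrm_le_exc h2
  refine ⟨ν, mem_filter.mpr ⟨mem_biUnion.mpr ⟨nrm ν, mem_range.mpr (by omega),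
    mem_types.mpr ⟨h3, rfl⟩⟩, by omega⟩, ?_, h4.symm⟩
  rw [h5, Nat.add_sub_cancel_left]
  exact h1

lemma mem_cores {e : ℕ} {ν : Multiset ℕ} (h : ν ∈ cores e) : Valid ν ∧ nrm ν < 2 * e := by
  obtain ⟨j, h1, h2⟩ := mem_biUnion.mp (mem_filter.mp h).1
  obtain ⟨h3, rfl⟩ := mem_types.mp h2
  exact ⟨h3, mem_range.mp h1⟩

lemma val_ne_zero {d n : ℕ} {F : Lam} (hF : F ∈ JH d n) {μ : Multiset ℕ} (hμ : Valid μ)
    (h : val F μ ≠ 0) : nrm μ = n ∧ exc μ + d < 2 * n := by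
  have h1 : nrm μ = n := by_contra fun e => h (hF.2 μ hμ e)
  have h2 : ¬ μ.sum ≤ d := fun e => h (mem_J.mp hF.1 μ hμ e)
  have h3 := hμ.exc
  omega

noncomputable def ev (e n : ℕ) : Lam →ₗ[ℚ] (cores e → ℚ) :=
  LinearMap.pi fun τ => (LinearMap.proj (τ.1 + Multiset.replicate (n - nrm τ.1) 2)).comp val

lemma ev_inj {d n e : ℕ} (he : d + e = 2 * n) {F : Lam} (hF : F ∈ JH d n) (h : ev e n F = 0) :
    F = 0 := by
  refine Lam.ext' fun μ hμ => ?_
  rw [map_zero, Pi.zero_apply]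
  by_contra hc
  obtain ⟨h1, h2⟩ := val_ne_zero hF hμ hc
  obtain ⟨ν, h3, h4, -⟩ := exists_core hμ (e := e) (by omega)
  have := congrFun h ⟨ν, h3⟩
  rw [h4, h1] at hc
  exact hc this

noncomputable def gen (t e n : ℕ) (c : Fin e × cores e) : Lam :=
  if t ≤ c.1.1 ∧ exc c.2.1 + 2 * c.1.1 < e then
    dl c.1.1 * K (c.2.1 + Multiset.replicate (n - c.1.1 - nrm c.2.1) 2) else 0

lemma W_eq_span {t d n e : ℕ} (he : d + e = 2 * n) (hn : 3 * e ≤ n) :
    W t d n = Submodule.span ℚ (Set.range (gen t e n)) := by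
  refine le_antisymm (Submodule.span_le.mpr ?_) (Submodule.span_le.mpr ?_)
  · rintro _ ⟨i, b, hi, hb, j, h1, h2, rfl⟩
    rw [eq_sum_K h2, mul_sum]
    refine Submodule.sum_mem _ fun μ hμ => ?_
    by_cases h0 : val j μ = 0
    · simp [h0]
    rw [mul_smul_comm]
    have hv := (mem_types.mp hμ).1
    obtain ⟨h3, h4⟩ := val_ne_zero (d := d) (n := b) ⟨h1, h2⟩ hv h0
    obtain ⟨ν, h5, h6, h7⟩ := exists_core hv (e := e) (by omega)
    refine Submodule.smul_mem _ _ (Submodule.subset_span ⟨(⟨i, by omega⟩, ⟨ν, h5⟩), ?_⟩)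
    rw [gen, if_pos ⟨hi, by simp only; omega⟩]
    simp only
    rw [show n - i = nrm μ by omega, ← h6]
  · rintro _ ⟨⟨i, ν, hν⟩, rfl⟩
    rw [gen]
    split_ifs with h
    · obtain ⟨h1, h2⟩ := mem_cores hν
      have h3 := h1.nrm_add_rep (n - i - nrm ν)
      have h4 := (h1.add_rep (n - i - nrm ν)).exc
      have h5 := i.2
      rw [exc_add_rep] at h4
      simp only at h
      refine Submodule.subset_span ⟨i, _, h.1, ?_, _, mem_J.mpr fun μ h6 h7 => ?_, K_mem_H _, rfl⟩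
      · simp only
        omega
      · rw [val_K _ h6, if_neg]
        rintro rfl
        simp only at h7
        omega
    · exact Submodule.zero_mem _

theorem finrank_W (t d0 n0 : ℕ) (h : d0 < 2 * n0) :
    ∃ K r : ℕ, ∀ k ≥ K, finrank ℚ (W t (d0 + 2 * k) (n0 + k)) = r := by
  obtain ⟨e, he⟩ : ∃ e, d0 + e = 2 * n0 := ⟨2 * n0 - d0, by omega⟩
  have hp : ∀ (τ : cores e) (c : Fin e × cores e), ∃ p : ℚ[X], ∀ k : ℕ,
      ev e (n0 + 3 * e + k) (gen t e (n0 + 3 * e + k) c) τ = p.eval (k : ℚ) := by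
    rintro ⟨τ, hτ⟩ ⟨i, ν, hν⟩
    obtain ⟨h1, h2⟩ := mem_cores hτ
    obtain ⟨-, h3⟩ := mem_cores hν
    have h4 := i.2
    by_cases hc : t ≤ i.1 ∧ exc ν + 2 * i.1 < e
    · obtain ⟨p, hp⟩ := isPoly_val ν τ h1 i (n0 + 3 * e - i - nrm ν) (n0 + 3 * e - nrm τ)
      refine ⟨p, fun k => ?_⟩
      rw [← hp k, gen, if_pos hc]
      simp only
      rw [show n0 + 3 * e - i - nrm ν + k = n0 + 3 * e + k - i - nrm ν by omega,
        show n0 + 3 * e - nrm τ + k = n0 + 3 * e + k - nrm τ by omega]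
      rfl
    · exact ⟨0, fun k => by rw [gen, if_neg hc]; simp⟩
  choose M hM using hp
  obtain ⟨K, r, hK⟩ := rank_eventually_const (Matrix.of M)
  refine ⟨3 * e + K, r, fun k hk => ?_⟩
  obtain ⟨k, rfl⟩ : ∃ k', k = 3 * e + k' := ⟨k - 3 * e, by omega⟩
  have he' : d0 + 2 * (3 * e + k) + e = 2 * (n0 + 3 * e + k) := by omega
  rw [← hK k (by omega), Matrix.rank_eq_finrank_span_cols, ← add_assoc n0,
    ← finrank_map_of_inj (ev e (n0 + 3 * e + k)) _ fun p hp => ev_inj he' (W_le _ _ _ hp),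
    W_eq_span he' (by omega), Submodule.map_span, ← Set.range_comp]
  have : ev e (n0 + 3 * e + k) ∘ gen t e (n0 + 3 * e + k)
      = ((Matrix.of M).map (eval (k : ℚ))).col := funext fun c => funext fun τ => hM τ c k
  rw [this]

theorem main (d0 n0 : ℕ) : ∃ K c : ℕ, ∀ k ≥ K, minRel (d0 + 2 * k) (n0 + k) = c := by
  rcases le_or_gt (2 * n0) d0 with h | h
  · exact ⟨0, 0, fun k _ => minRel_zero (by omega)⟩
  obtain ⟨K₀, r₀, h₀⟩ := finrank_W 0 d0 n0 h
  obtain ⟨K₁, r₁, h₁⟩ := finrank_W 1 d0 n0 h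
  refine ⟨K₀ + K₁, r₀ - r₁ - 1, fun k hk => ?_⟩
  have := minRel_add (d := d0 + 2 * k) (n := n0 + k) (by omega)
  rw [h₀ k (by omega), h₁ k (by omega)] at this
  omega

end Pool.Agent.MP_15ac55_ag
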