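import Mathlib
import Pool.Agent.MP_15ac55_ag.DefsC
import Pool.Agent.MP_15ac55_ag.Final

/-!
The explicit map on coefficient functions is the algebra map `φ_d`.
-/

set_option autoImplicit false

open Finset

namespace Pool.Agent.MP_15ac55_ag

lemma iterate_grMul {d : ℕ} (x y : classFun d) (k : ℕ) : (grMul x.1)^[k] y.1 = (x ^ k * y).1 := by
  induction k with
  | zero => simp
  | succ k ih => rw [Function.iterate_succ_apply', ih, pow_succ', mul_assoc, coe_mul' x]

lemma deltaMonomial_eq (d : ℕ) (s : Fin (d / 2) → ℕ) :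
    deltaMonomial d s = (∏ i, delta d (i.val + 1) ^ s i).1 := by
  have key : ∀ l : List (Fin (d / 2)),
      l.foldr (fun i f => (grMul (deltaFun d (i.val + 1)))^[s i] f)
        (fun σ => if σ = 1 then 1 else 0) = ((l.map fun i => delta d (i.val + 1) ^ s i).prod).1 := by
    intro l
    induction l with
    | nil => funext σ; simp [coe_one', Pi.single_apply]
    | cons i l ih =>
      rw [List.foldr_cons, ih, List.map_cons, List.prod_cons, ← iterate_grMul]
      rfl
  rw [deltaMonomial, key, Fin.prod_univ_def]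

lemma phiFun_eq (d : ℕ) (p : MvPolynomial (Fin (d / 2)) ℚ) : phiFun d p = (phi d p).1 := by
  funext π
  rw [phi, MvPolynomial.aeval_def, MvPolynomial.eval₂_eq']
  simp only [← Algebra.smul_def, phiFun, deltaMonomial_eq]
  rw [Submodule.coe_sum, Finset.sum_apply]
  rfl

lemma span_eq_ker (d : ℕ) : Ideal.span {p | ∀ π, phiFun d p π = 0} = RingHom.ker (phi d) := by
  rw [← Ideal.span_eq (RingHom.ker (phi d))]
  congr 1
  ext p
  rw [Set.mem_ofPred_eq, SetLike.mem_coe, RingHom.mem_ker, phiFun_eq]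
  exact ⟨fun h => Subtype.ext (funext h), fun h π => by rw [h]; rfl⟩

lemma relDim_eq {P : Type} [CommRing P] [Algebra ℚ P] (M I : Ideal P) (V : Submodule ℚ P)
    [FiniteDimensional ℚ V] : relDim M I V = Module.finrank ℚ
      (Submodule.map (Ideal.Quotient.mkₐ ℚ (M * I)).toLinearMap (I.restrictScalars ℚ ⊓ V)) := by
  have : FiniteDimensional ℚ (I.restrictScalars ℚ ⊓ V : Submodule ℚ P) :=
    Submodule.finiteDimensional_of_le (S₂ := V) inf_le_right
  have h1 := finrank_map_add ((M * I).restrictScalars ℚ).mkQ (I.restrictScalars ℚ ⊓ V)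
  have h2 := finrank_map_add (Ideal.Quotient.mkₐ ℚ (M * I)).toLinearMap (I.restrictScalars ℚ ⊓ V)
  have h3 : LinearMap.ker (Ideal.Quotient.mkₐ ℚ (M * I)).toLinearMap
      = (M * I).restrictScalars ℚ := Submodule.ext fun _ => Ideal.Quotient.eq_zero_iff_mem
  rw [Submodule.ker_mkQ] at h1
  rw [h3] at h2
  rw [relDim, quotDim]
  omega

lemma numRel_eq (d n : ℕ) : numRel d n = minRel d n := by
  have : FiniteDimensional ℚ
      (MvPolynomial.weightedHomogeneousSubmodule ℚ (fun i : Fin (d / 2) => i.val + 1) n) :=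
    Module.Finite.iff_fg.mpr
      (MvPolynomial.weightedHomogeneousSubmodule_fg _ _ (fun _ => by omega) n)
  rw [numRel, span_eq_ker, relDim_eq]
  rfl

theorem main' (d0 n0 : ℕ) : ∃ K c : ℕ, ∀ k ≥ K, numRel (d0 + 2 * k) (n0 + k) = c := by
  simpa only [numRel_eq] using main d0 n0

end Pool.Agent.MP_15ac55_ag
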